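import Pool.Agent.X247.K3.Two

set_option autoImplicit false

/-!
# The first level is smaller

The language of the words `a^n # b^n $ c^n` is an ET0L language and is not generated by any
1-restricted system. Proof of the second statement: take a derivation of a sufficiently long word
with the least number of steps. If two steps rewrite the same letter `X` (and the steps between them
do not) then the first of them can be left out; the result is a shorter derivation of a word which
is long again. So each letter is rewritten at most once, and the word is short.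
-/

namespace Pool.Agent.X247.K3

open Relation

/-- The word `a^n # b^n $ c^n`, with the letters `0, 1, 2, 3, 4` for `a, #, b, $, c`. -/
def W (n : ℕ) : List (Fin 5) :=
  List.replicate n 0 ++ 1 :: (List.replicate n 2 ++ 3 :: List.replicate n 4)

theorem length_W (n : ℕ) : (W n).length = 3 * n + 2 := by
  simp [W]
  omega

theorem count_W (n : ℕ) : (W n).count 0 = n ∧ (W n).count 2 = n ∧ (W n).count 4 = n ∧
    (W n).count 1 = 1 ∧ (W n).count 3 = 1 := by
  simp [W, List.count_replicate, List.count_cons]

theorem sorted_W (n : ℕ) : (W n).Pairwise (· ≤ ·) := by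
  unfold W
  rw [List.pairwise_append]
  refine ⟨List.pairwise_replicate.2 (Or.inr le_rfl), ?_, ?_⟩
  · rw [List.pairwise_cons, List.pairwise_append, List.pairwise_cons]
    refine ⟨?_, List.pairwise_replicate.2 (Or.inr le_rfl), ⟨?_, List.pairwise_replicate.2
      (Or.inr le_rfl)⟩, ?_⟩
    · intro a ha
      rw [List.mem_append, List.mem_cons, List.mem_replicate, List.mem_replicate] at ha
      rcases ha with ⟨-, rfl⟩ | rfl | ⟨-, rfl⟩ <;> decide
    · intro a ha
      rw [List.mem_replicate] at ha
      rw [ha.2]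
      decide
    · intro a ha b hb
      rw [List.mem_replicate] at ha
      rw [List.mem_cons, List.mem_replicate] at hb
      rw [ha.2]
      rcases hb with rfl | ⟨-, rfl⟩ <;> decide
  · intro a ha b hb
    rw [List.mem_replicate] at ha
    rw [ha.2]
    exact Fin.zero_le _

/-- Fill the holes `none` of the template `τ` with the word `v`. -/
def fill {T : Type} (τ : List (Option T)) (v : List T) : List T :=
  τ.flatMap fun o => o.elim v fun t => [t]

theorem fill_none {T : Type} (τ : List (Option T)) (v : List T) :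
    fill (none :: τ) v = v ++ fill τ v := rfl

theorem fill_some {T : Type} (t : T) (τ : List (Option T)) (v : List T) :
    fill (some t :: τ) v = t :: fill τ v := rfl

theorem fill_map_some {T : Type} (u : List T) (τ : List (Option T)) (v : List T) :
    fill (u.map some ++ τ) v = u ++ fill τ v := by
  induction u with
  | nil => rfl
  | cons t u ih =>
    change t :: fill (u.map some ++ τ) v = _
    rw [ih]
    rfl

theorem count_fill (τ : List (Option (Fin 5))) (v : List (Fin 5)) (y : Fin 5) :
    (fill τ v).count y = (fill τ []).count y + (τ.countP Option.isNone) * v.count y := by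
  induction τ with
  | nil => simp [fill]
  | cons o τ ih =>
    cases o with
    | none =>
      rw [fill_none, fill_none, List.count_append, List.nil_append, ih, List.countP_cons_of_pos rfl]
      ring
    | some t =>
      rw [fill_some, fill_some, List.count_cons, List.count_cons, ih,
        List.countP_cons_of_neg (by simp)]
      ring

theorem length_fill_mono {T : Type} (τ : List (Option T)) {u v : List T}
    (h : u.length ≤ v.length) : (fill τ u).length ≤ (fill τ v).length := by
  induction τ with
  | nil => exact le_rfl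
  | cons o τ ih =>
    cases o with
    | none =>
      rw [fill_none, fill_none, List.length_append, List.length_append]
      omega
    | some t =>
      rw [fill_some, fill_some, List.length_cons, List.length_cons]
      omega

theorem factor_fill {T : Type} {τ : List (Option T)} (v : List T) (h : none ∈ τ) :
    ∃ p s, fill τ v = p ++ (v ++ s) := by
  induction τ with
  | nil => cases h
  | cons o τ ih =>
    rcases List.mem_cons.1 h with h1 | h1
    · subst h1
      exact ⟨[], fill τ v, rfl⟩
    · obtain ⟨p, s, h2⟩ := ih h1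
      cases o with
      | none => exact ⟨v ++ p, s, by rw [fill_none, h2, List.append_assoc]⟩
      | some t => exact ⟨t :: p, s, by rw [fill_some, h2]; rfl⟩

/-- A factor of `W n` with letters less than `y` and greater than `y` contains `y`. -/
theorem mem_mid {n : ℕ} {p v s : List (Fin 5)} (h : p ++ (v ++ s) = W n) {x y z : Fin 5}
    (hx : x ∈ v) (hz : z ∈ v) (hxy : x < y) (hyz : y < z) (hy : y ∈ W n) : y ∈ v := by
  have hs := sorted_W n
  rw [← h, List.mem_append, List.mem_append] at hy
  rw [← h, List.pairwise_append, List.pairwise_append] at hs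
  rcases hy with h1 | h1 | h1
  · exact absurd (hs.2.2 y h1 x (List.mem_append_left _ hx)) (not_le.2 hxy)
  · exact h1
  · exact absurd (hs.2.1.2.2 z hz y h1) (not_le.2 hyz)

/-- The number of the letters `b` in a factor of `W n` that contains `#` and `$`. -/
theorem count_mid {n : ℕ} {p v s : List (Fin 5)} (h : p ++ (v ++ s) = W n)
    (h1 : (1 : Fin 5) ∈ v) (h3 : (3 : Fin 5) ∈ v) : v.count 2 = n := by
  have hs := sorted_W n
  rw [← h, List.pairwise_append, List.pairwise_append] at hs
  have hp : (2 : Fin 5) ∉ p := fun h2 =>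
    absurd (hs.2.2 2 h2 1 (List.mem_append_left _ h1)) (by decide)
  have hs' : (2 : Fin 5) ∉ s := fun h2 => absurd (hs.2.1.2.2 3 h3 2 h2) (by decide)
  have hc := (count_W n).2.1
  rw [← h, List.count_append, List.count_append, List.count_eq_zero_of_not_mem hp,
    List.count_eq_zero_of_not_mem hs'] at hc
  omega

theorem rigid {τ : List (Option (Fin 5))} {v v' : List (Fin 5)} {n m : ℕ} (hτ : none ∈ τ)
    (h : fill τ v = W n) (h' : fill τ v' = W m) : n ≤ m ∨ ((1 : Fin 5) ∈ v' ∧ (3 : Fin 5) ∈ v') := by
  obtain ⟨n0, n2, n4, n1, n3⟩ := count_W n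
  obtain ⟨m0, m2, m4, m1, m3⟩ := count_W m
  have hk : 0 < τ.countP Option.isNone := List.countP_pos_iff.2 ⟨none, hτ, rfl⟩
  have key : ∀ y : Fin 5, (W n).count y = n → (W m).count y = m → y ∉ v → n ≤ m := by
    intro y hn hm hy
    rw [← h, count_fill, List.count_eq_zero_of_not_mem hy] at hn
    rw [← h', count_fill] at hm
    omega
  by_cases h0 : (0 : Fin 5) ∈ v
  swap
  · exact Or.inl (key 0 n0 m0 h0)
  by_cases h2 : (2 : Fin 5) ∈ v
  swap
  · exact Or.inl (key 2 n2 m2 h2)
  by_cases h4 : (4 : Fin 5) ∈ v
  swap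
  · exact Or.inl (key 4 n4 m4 h4)
  right
  obtain ⟨p, s, hps⟩ := factor_fill v hτ
  have hw : p ++ (v ++ s) = W n := hps.symm.trans h
  have key2 : ∀ y : Fin 5, (W n).count y = 1 → (W m).count y = 1 → y ∈ v → y ∈ v' := by
    intro y hn hm hy
    have hy1 : 0 < v.count y := List.count_pos_iff.2 hy
    rw [← h, count_fill] at hn
    rw [← h', count_fill] at hm
    have h5 : 0 < τ.countP Option.isNone * v.count y := Nat.mul_pos hk hy1
    have h6 : τ.countP Option.isNone * v'.count y = 1 := by omega
    have h7 : 0 < v'.count y := by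
      rcases Nat.eq_zero_or_pos (v'.count y) with h8 | h8
      · rw [h8] at h6
        omega
      · exact h8
    exact List.count_pos_iff.1 h7
  refine ⟨key2 1 n1 m1 (mem_mid hw h0 h2 (by decide) (by decide) ?_),
    key2 3 n3 m3 (mem_mid hw h2 h4 (by decide) (by decide) ?_)⟩
  · exact List.count_pos_iff.1 (by omega)
  · exact List.count_pos_iff.1 (by omega)

section Ders

variable {T : Type} (G : ET0L T)

/-- Derivation by the tables of a list. -/
def Ders : List G.H → List G.V → List G.V → Prop
  | [], x, y => x = y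
  | h :: hs, x, y => ∃ z, Sub (fun c w => w ∈ G.tab h c) x z ∧ Ders hs z y

variable {G}

theorem ders_append {hs hs' : List G.H} {x y : List G.V} :
    Ders G (hs ++ hs') x y ↔ ∃ z, Ders G hs x z ∧ Ders G hs' z y := by
  induction hs generalizing x with
  | nil =>
    constructor
    · exact fun h => ⟨x, rfl, h⟩
    · rintro ⟨z, h1, h2⟩
      cases h1
      exact h2
  | cons h hs ih =>
    constructor
    · rintro ⟨z, h1, h2⟩
      obtain ⟨z', h3, h4⟩ := ih.1 h2
      exact ⟨z', ⟨z, h1, h3⟩, h4⟩
    · rintro ⟨z', ⟨z, h1, h3⟩, h4⟩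
      exact ⟨z, h1, ih.2 ⟨z', h3, h4⟩⟩

theorem ders_of_derives {x y : List G.V} (h : ReflTransGen G.Step x y) :
    ∃ hs, Ders G hs x y := by
  induction h using ReflTransGen.head_induction_on with
  | refl => exact ⟨[], rfl⟩
  | head h _ ih =>
    obtain ⟨hs, h1⟩ := ih
    obtain ⟨t, h2⟩ := h
    exact ⟨t :: hs, _, h2, h1⟩

theorem derives_of_ders {hs : List G.H} {x y : List G.V} (h : Ders G hs x y) :
    ReflTransGen G.Step x y := by
  induction hs generalizing x with
  | nil =>
    cases h
    exact ReflTransGen.refl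
  | cons t hs ih =>
    obtain ⟨z, h1, h2⟩ := h
    exact ReflTransGen.head ⟨t, h1⟩ (ih h2)

theorem Ders.app {hs : List G.H} {x x' y y' : List G.V} (h : Ders G hs x y)
    (h' : Ders G hs x' y') : Ders G hs (x ++ x') (y ++ y') := by
  induction hs generalizing x x' with
  | nil =>
    cases h
    cases h'
    rfl
  | cons t hs ih =>
    obtain ⟨z, h1, h2⟩ := h
    obtain ⟨z', h1', h2'⟩ := h'
    exact ⟨z ++ z', h1.append h1', ih h2 h2'⟩

theorem Ders.app_inv {hs : List G.H} {x x' y : List G.V} (h : Ders G hs (x ++ x') y) :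
    ∃ y₁ y₂, y = y₁ ++ y₂ ∧ Ders G hs x y₁ ∧ Ders G hs x' y₂ := by
  induction hs generalizing x x' with
  | nil =>
    cases h
    exact ⟨x, x', rfl, rfl, rfl⟩
  | cons t hs ih =>
    obtain ⟨z, h1, h2⟩ := h
    obtain ⟨z₁, z₂, rfl, h3, h4⟩ := h1.append_inv
    obtain ⟨y₁, y₂, h5, h6, h7⟩ := ih h2
    exact ⟨y₁, y₂, h5, ⟨z₁, h3, h6⟩, ⟨z₂, h4, h7⟩⟩

theorem Ders.nil_inv {hs : List G.H} {y : List G.V} (h : Ders G hs [] y) : y = [] := by
  induction hs with
  | nil => exact h.symm
  | cons t hs ih =>
    obtain ⟨z, h1, h2⟩ := h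
    cases h1
    exact ih h2

theorem Ders.nil (hs : List G.H) : Ders G hs [] [] := by
  induction hs with
  | nil => rfl
  | cons t hs ih => exact ⟨[], Sub.nil, ih⟩

theorem sub_inactive {h : G.H} {x z : List G.V} (hx : ∀ c ∈ x, G.tab h c = {[c]})
    (hs : Sub (fun c w => w ∈ G.tab h c) x z) : z = x := by
  rw [hs.det (fun c => [c]) (fun c hc w hw => by rw [hx c hc] at hw; exact hw),
    Prog.flatMap_single, List.map_id']

theorem ders_inactive {h : G.H} {hs : List G.H} {c : G.V} {y : List G.V}
    (hc : G.tab h c = {[c]}) : Ders G (h :: hs) [c] y ↔ Ders G hs [c] y := by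
  constructor
  · rintro ⟨z, h1, h2⟩
    have h3 : z = [c] := sub_inactive (by
      intro d hd
      rw [List.mem_singleton.1 hd]
      exact hc) h1
    rw [h3] at h2
    exact h2
  · intro h1
    exact ⟨[c], Sub.single (by rw [hc]; rfl), h1⟩

theorem ders_inactive_list {hs hs' : List G.H} {c : G.V} {y : List G.V}
    (hc : ∀ h ∈ hs, G.tab h c = {[c]}) (h' : Ders G hs' [c] y) : Ders G (hs ++ hs') [c] y := by
  induction hs with
  | nil => exact h'
  | cons h hs ih =>
    exact (ders_inactive (hc h (List.mem_cons_self ..))).2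
      (ih fun h hh => hc h (List.mem_cons_of_mem _ hh))

theorem exists_bound (G : ET0L T) : ∃ K, 1 ≤ K ∧ ∀ h c w, w ∈ G.tab h c → w.length ≤ K := by
  have := G.finH
  have := G.finV
  have h1 : (⋃ p : G.H × G.V, G.tab p.1 p.2).Finite :=
    Set.finite_iUnion fun p => G.tab_fin p.1 p.2
  obtain ⟨K, hK⟩ := (h1.image List.length).bddAbove
  refine ⟨max K 1, le_max_right _ _, fun h c w hw => le_max_of_le_left (hK ?_)⟩
  exact ⟨w, Set.mem_iUnion.2 ⟨(h, c), hw⟩, rfl⟩

theorem sub_length {K : ℕ} {h : G.H} (hK : ∀ h c w, w ∈ G.tab h c → w.length ≤ K)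
    {x z : List G.V} (hs : Sub (fun c w => w ∈ G.tab h c) x z) : z.length ≤ x.length * K := by
  induction hs with
  | nil => simp
  | cons h1 _ ih =>
    rw [List.length_append, List.length_cons, Nat.succ_mul]
    have := hK _ _ _ h1
    omega

theorem ders_length {K : ℕ} (hK : ∀ h c w, w ∈ G.tab h c → w.length ≤ K)
    {hs : List G.H} {x y : List G.V} (h : Ders G hs x y) : y.length ≤ x.length * K ^ hs.length := by
  induction hs generalizing x with
  | nil =>
    cases h
    simp
  | cons t hs ih =>
    obtain ⟨z, h1, h2⟩ := h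
    calc y.length ≤ z.length * K ^ hs.length := ih h2
      _ ≤ (x.length * K) * K ^ hs.length := Nat.mul_le_mul_right _ (sub_length hK h1)
      _ = x.length * K ^ (t :: hs).length := by
          rw [List.length_cons, pow_succ]
          ring

theorem template {h : G.H} {rest : List G.H} {X : G.V}
    (hact : ∀ c, c ≠ X → G.tab h c = {[c]}) {v₀ : List T}
    (hv₀ : Ders G (h :: rest) [X] (v₀.map G.term)) (x : List G.V) :
    ∀ w : List T, Ders G (h :: rest) x (w.map G.term) → ∃ (τ : List (Option T)) (v : List T),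
      (X ∈ x → none ∈ τ) ∧ Ders G (h :: rest) [X] (v.map G.term) ∧
      w.length ≤ (fill τ v).length ∧
      (∀ u : List T, Ders G (h :: rest) [X] (u.map G.term) →
        Ders G (h :: rest) x ((fill τ u).map G.term)) ∧
      (∀ u : List T, Ders G rest [X] (u.map G.term) →
        Ders G rest x ((fill τ u).map G.term)) := by
  induction x with
  | nil =>
    intro w hw
    have h1 := hw.nil_inv
    have h2 : w = [] := List.map_eq_nil_iff.1 h1
    subst h2
    exact ⟨[], v₀, fun h => (by cases h), hv₀, Nat.zero_le _, fun _ _ => Ders.nil _,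
      fun _ _ => Ders.nil _⟩
  | cons c x ih =>
    intro w hw
    obtain ⟨y₁, y₂, h1, h2, h3⟩ := Ders.app_inv (x := [c]) hw
    obtain ⟨w₁, w₂, rfl, rfl, rfl⟩ := List.map_eq_append_iff.1 h1
    obtain ⟨τ, v, h4, h5, h6, h7, h8⟩ := ih w₂ h3
    by_cases hc : c = X
    · subst hc
      by_cases hl : v.length ≤ w₁.length
      · refine ⟨none :: τ, w₁, fun _ => List.mem_cons_self .., h2, ?_, ?_, ?_⟩
        · rw [fill_none, List.length_append, List.length_append]
          have := length_fill_mono τ hl
          omega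
        · intro u hu
          rw [fill_none, List.map_append]
          exact Ders.app (x := [c]) hu (h7 u hu)
        · intro u hu
          rw [fill_none, List.map_append]
          exact Ders.app (x := [c]) hu (h8 u hu)
      · refine ⟨none :: τ, v, fun _ => List.mem_cons_self .., h5, ?_, ?_, ?_⟩
        · rw [fill_none, List.length_append, List.length_append]
          omega
        · intro u hu
          rw [fill_none, List.map_append]
          exact Ders.app (x := [c]) hu (h7 u hu)
        · intro u hu
          rw [fill_none, List.map_append]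
          exact Ders.app (x := [c]) hu (h8 u hu)
    · refine ⟨w₁.map some ++ τ, v, ?_, h5, ?_, ?_, ?_⟩
      · intro h9
        rcases List.mem_cons.1 h9 with h10 | h10
        · exact absurd h10.symm hc
        · exact List.mem_append_right _ (h4 h10)
      · rw [fill_map_some, List.length_append, List.length_append]
        omega
      · intro u hu
        rw [fill_map_some, List.map_append]
        exact Ders.app (x := [c]) h2 (h7 u hu)
      · intro u hu
        rw [fill_map_some, List.map_append]
        exact Ders.app (x := [c]) ((ders_inactive (hact c hc)).1 h2) (h8 u hu)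

end Ders

theorem exists_dup {α : Type} [DecidableEq α] (l : List α) (h : ¬ l.Nodup) :
    ∃ (a : α) (l₁ l₂ l₃ : List α), l = l₁ ++ a :: (l₂ ++ a :: l₃) ∧ a ∉ l₂ := by
  induction l with
  | nil => exact absurd List.nodup_nil h
  | cons c l ih =>
    by_cases hc : c ∈ l
    · obtain ⟨l₂, l₃, h1, h2⟩ := List.eq_append_cons_of_mem hc
      exact ⟨c, [], l₂, l₃, by rw [h1]; rfl, h2⟩
    · obtain ⟨a, l₁, l₂, l₃, h1, h2⟩ := ih fun hn => h (List.nodup_cons.2 ⟨hc, hn⟩)
      exact ⟨a, c :: l₁, l₂, l₃, by rw [h1]; rfl, h2⟩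

/-- The language `{W n}` is not generated by a 1-restricted system. -/
theorem not_one (G : ET0L (Fin 5)) (h1 : G.Restricted 1) : G.language ≠ {w | ∃ n, w = W n} := by
  classical
  intro hL
  have := G.finV
  have := Fintype.ofFinite G.V
  obtain ⟨K, hK1, hK⟩ := exists_bound G
  set B := G.ax.length * K ^ Fintype.card G.V with hB
  have hact : ∀ h c d, G.tab h c ≠ {[c]} → G.tab h d ≠ {[d]} → c = d := by
    intro h c d hc hd
    by_contra hne
    have h2 : ({c, d} : Set G.V).ncard ≤ {c | G.tab h c ≠ {[c]}}.ncard := by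
      refine Set.ncard_le_ncard ?_ (Set.toFinite _)
      intro e he
      rcases he with rfl | he
      · exact hc
      · rw [Set.mem_singleton_iff.1 he]
        exact hd
    rw [Set.ncard_pair hne] at h2
    have := h1 h
    omega
  have hmem : ∀ (hs : List G.H) (w : List (Fin 5)), Ders G hs G.ax (w.map G.term) →
      ∃ n, w = W n := by
    intro hs w hw
    have : w ∈ G.language := derives_of_ders hw
    rw [hL] at this
    exact this
  have hex : ∃ k, ∃ (hs : List G.H) (n : ℕ), hs.length = k ∧ B < (W n).length ∧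
      Ders G hs G.ax ((W n).map G.term) := by
    have : W B ∈ G.language := by
      rw [hL]
      exact ⟨B, rfl⟩
    obtain ⟨hs, h2⟩ := ders_of_derives this
    exact ⟨_, hs, B, rfl, by rw [length_W]; omega, h2⟩
  obtain ⟨hs, n, hk, hn, hd⟩ := Nat.find_spec hex
  have hmin : ∀ (hs' : List G.H) (m : ℕ), B < (W m).length →
      Ders G hs' G.ax ((W m).map G.term) → hs.length ≤ hs'.length := by
    intro hs' m hm hd'
    rw [hk]
    exact Nat.find_min' hex ⟨hs', m, rfl, hm, hd'⟩
  -- every step rewrites a letter that occurs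
  have hocc : ∀ (hs₁ : List G.H) (h : G.H) (hs₂ : List G.H) (x : List G.V),
      hs = hs₁ ++ h :: hs₂ → Ders G hs₁ G.ax x → Ders G (h :: hs₂) x ((W n).map G.term) →
      ∃ c ∈ x, G.tab h c ≠ {[c]} := by
    intro hs₁ h hs₂ x he hd1 hd2
    by_contra hno
    push Not at hno
    obtain ⟨z, h3, h4⟩ := hd2
    rw [sub_inactive hno h3] at h4
    have h5 := hmin (hs₁ ++ hs₂) n hn (ders_append.2 ⟨x, hd1, h4⟩)
    rw [he, List.length_append, List.length_append, List.length_cons] at h5
    omega
  have hall : ∀ h ∈ hs, ∃ c, G.tab h c ≠ {[c]} := by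
    intro h hh
    obtain ⟨hs₁, hs₂, he⟩ := List.append_of_mem hh
    have hd' := hd
    rw [he] at hd'
    obtain ⟨x, h3, h4⟩ := ders_append.1 hd'
    obtain ⟨c, -, hc⟩ := hocc hs₁ h hs₂ x he h3 h4
    exact ⟨c, hc⟩
  have hV : Nonempty G.V := ⟨G.term 0⟩
  let f : G.H → G.V := fun h =>
    if hc : ∃ c, G.tab h c ≠ {[c]} then hc.choose else hV.some
  have hf : ∀ h c, G.tab h c ≠ {[c]} → f h = c := by
    intro h c hc
    have he : ∃ c, G.tab h c ≠ {[c]} := ⟨c, hc⟩
    change (if hc : ∃ c, G.tab h c ≠ {[c]} then hc.choose else hV.some) = c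
    rw [dif_pos he]
    exact hact h _ _ he.choose_spec hc
  have hnd : (hs.map f).Nodup := by
    by_contra hnd
    obtain ⟨X, l₁, l₂, l₃, hl, hX⟩ := exists_dup _ hnd
    obtain ⟨hs₁, hs', he1, rfl, h2⟩ := List.map_eq_append_iff.1 hl
    obtain ⟨h, hs'', rfl, hfX, h3⟩ := List.map_eq_cons_iff.1 h2
    obtain ⟨hs₂, hs''', rfl, rfl, h4⟩ := List.map_eq_append_iff.1 h3
    obtain ⟨h', hs₃, rfl, hfX', rfl⟩ := List.map_eq_cons_iff.1 h4
    have hd' := hd
    rw [he1] at hd'
    obtain ⟨x, hd1, hd2⟩ := ders_append.1 hd'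
    obtain ⟨c, hc, hca⟩ := hocc hs₁ h _ x he1 hd1 hd2
    have hcX : c = X := (hf h c hca).symm.trans hfX
    subst hcX
    -- the second step
    have hd3 : ∃ x₂, Ders G (hs₁ ++ h :: hs₂) G.ax x₂ ∧ Ders G (h' :: hs₃) x₂ ((W n).map G.term) := by
      apply ders_append.1
      rw [List.append_assoc]
      exact hd'
    obtain ⟨x₂, hd4, hd5⟩ := hd3
    obtain ⟨c', hc', hca'⟩ := hocc (hs₁ ++ h :: hs₂) h' hs₃ x₂ (by
      rw [he1, List.append_assoc]
      rfl) hd4 hd5
    have hcX' : c' = c := (hf h' c' hca').symm.trans hfX'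
    subst hcX'
    obtain ⟨p, s, rfl⟩ := List.append_of_mem hc'
    obtain ⟨y₁, y₂, h5, h6, h7⟩ := hd5.app_inv
    obtain ⟨y₃, y₄, rfl, h8, h9⟩ := Ders.app_inv (x := [c']) h7
    obtain ⟨u₁, u₂, h10, rfl, h11⟩ := List.map_eq_append_iff.1 h5
    obtain ⟨v', u₃, rfl, rfl, rfl⟩ := List.map_eq_append_iff.1 h11
    have hin : ∀ g ∈ hs₂, G.tab g c' = {[c']} := by
      intro g hg
      by_contra hne
      exact hX (List.mem_map.2 ⟨g, hg, hf g c' hne⟩)
    have h12 : Ders G (hs₂ ++ h' :: hs₃) [c'] (v'.map G.term) := ders_inactive_list hin h8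
    have hact' : ∀ c, c ≠ c' → G.tab h c = {[c]} := by
      intro d hd
      by_contra hne
      exact hd (hact h d c' hne hca)
    -- some value of the letter
    obtain ⟨px, sx, rfl⟩ := List.append_of_mem hc
    obtain ⟨z₁, z₂, h13, h14, h15⟩ := hd2.app_inv
    obtain ⟨z₃, z₄, rfl, h16, h17⟩ := Ders.app_inv (x := [c']) h15
    obtain ⟨t₁, t₂, h18, rfl, h19⟩ := List.map_eq_append_iff.1 h13
    obtain ⟨v₀, t₃, rfl, rfl, rfl⟩ := List.map_eq_append_iff.1 h19
    obtain ⟨τ, v, h20, h21, h22, h23, h24⟩ := template hact' h16 _ _ hd2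
    have hτ := h20 (List.mem_append_right _ (List.mem_cons_self ..))
    obtain ⟨n₁, hn₁⟩ := hmem (hs₁ ++ h :: (hs₂ ++ h' :: hs₃)) _
      (ders_append.2 ⟨_, hd1, h23 v h21⟩)
    have hd6 : Ders G (hs₁ ++ (hs₂ ++ h' :: hs₃)) G.ax ((fill τ v').map G.term) :=
      ders_append.2 ⟨_, hd1, h24 v' h12⟩
    obtain ⟨m, hm⟩ := hmem _ _ hd6
    have hlong : B < (W m).length := by
      rcases rigid hτ hn₁ hm with h25 | ⟨h25, h26⟩
      · rw [hn₁, length_W, length_W] at h22
        rw [length_W] at hn ⊢
        omega
      · have h27 := count_mid h10.symm h25 h26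
        obtain ⟨p', s', h28⟩ := factor_fill v' hτ
        have h29 := count_mid (h28.symm.trans hm) h25 h26
        rw [← h29, h27]
        exact hn
    rw [hm] at hd6
    have h30 := hmin _ m hlong hd6
    rw [he1] at h30
    simp only [List.length_append, List.length_cons] at h30
    omega
  have hlen : hs.length ≤ Fintype.card G.V := by
    have := hnd.length_le_card
    rwa [List.length_map] at this
  have h3 := ders_length hK hd
  rw [List.length_map] at h3
  have h4 : K ^ hs.length ≤ K ^ Fintype.card G.V := Nat.pow_le_pow_right hK1 hlen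
  have h5 : G.ax.length * K ^ hs.length ≤ B := Nat.mul_le_mul_left _ h4
  omega

end Pool.Agent.X247.K3
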