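import Mathlib

set_option autoImplicit false

/-!
# ET0L systems and control programs

`ET0L` are the ET0L systems, `Prog` are programs: a finite control moves through its states and
tests the absence of letters; in each state some letters can be rewritten.
The language of a program is generated by a 3-restricted ET0L system.
-/

namespace Pool.Agent.X247.K3

open Relation

/-- `Sub f x y`: the word `y` is obtained from the word `x` if every occurrence of a letter `c` is
replaced by a word `w` with `f c w`; different occurrences are replaced independently. -/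
inductive Sub {α β : Type} (f : α → List β → Prop) : List α → List β → Prop
  | nil : Sub f [] []
  | cons {a : α} {w : List β} {x : List α} {y : List β} :
      f a w → Sub f x y → Sub f (a :: x) (w ++ y)

section Sub

variable {α β γ : Type} {f g : α → List β → Prop}

theorem Sub.append {x₁ x₂ : List α} {y₁ y₂ : List β} (h₁ : Sub f x₁ y₁) (h₂ : Sub f x₂ y₂) :
    Sub f (x₁ ++ x₂) (y₁ ++ y₂) := by
  induction h₁ with
  | nil => exact h₂
  | cons h _ ih =>
    rw [List.cons_append, List.append_assoc]
    exact Sub.cons h ih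

theorem Sub.append_inv {x₁ x₂ : List α} {y : List β} (h : Sub f (x₁ ++ x₂) y) :
    ∃ y₁ y₂, y = y₁ ++ y₂ ∧ Sub f x₁ y₁ ∧ Sub f x₂ y₂ := by
  induction x₁ generalizing y with
  | nil => exact ⟨[], y, rfl, Sub.nil, h⟩
  | cons a x ih =>
    cases h with
    | cons h1 h2 =>
      obtain ⟨y₁, y₂, h3, h4, h5⟩ := ih h2
      exact ⟨_ ++ y₁, y₂, by rw [h3, List.append_assoc], Sub.cons h1 h4, h5⟩

theorem Sub.mem {x : List α} {y : List β} (h : Sub f x y) {c : α} {n : β} (hc : c ∈ x)
    (hn : ∀ w, f c w → n ∈ w) : n ∈ y := by
  induction h with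
  | nil => cases hc
  | cons h1 _ ih =>
    rcases List.mem_cons.1 hc with rfl | h3
    · exact List.mem_append_left _ (hn _ h1)
    · exact List.mem_append_right _ (ih h3)

theorem Sub.mono {x : List α} {y : List β} (h : Sub f x y)
    (hfg : ∀ a ∈ x, ∀ w, f a w → g a w) : Sub g x y := by
  induction h with
  | nil => exact Sub.nil
  | cons h1 _ ih =>
    exact Sub.cons (hfg _ (List.mem_cons_self ..) _ h1)
      (ih fun a ha w => hfg a (List.mem_cons_of_mem _ ha) w)

theorem Sub.det {x : List α} {y : List β} (e : α → List β) (h : Sub f x y)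
    (he : ∀ a ∈ x, ∀ w, f a w → w = e a) : y = x.flatMap e := by
  induction h with
  | nil => rfl
  | cons h1 _ ih =>
    rw [List.flatMap_cons, ← he _ (List.mem_cons_self ..) _ h1,
      ← ih fun a ha w => he a (List.mem_cons_of_mem _ ha) w]

theorem Sub.of_fun (x : List α) (e : α → List β) (he : ∀ a ∈ x, f a (e a)) :
    Sub f x (x.flatMap e) := by
  induction x with
  | nil => exact Sub.nil
  | cons a x ih =>
    rw [List.flatMap_cons]
    exact Sub.cons (he a (List.mem_cons_self ..)) (ih fun b hb => he b (List.mem_cons_of_mem _ hb))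

theorem Sub.map_left {x : List γ} {e : γ → α} {y : List β} :
    Sub f (x.map e) y ↔ Sub (fun a w => f (e a) w) x y := by
  induction x generalizing y with
  | nil =>
    constructor
    · intro h
      cases h
      exact Sub.nil
    · intro h
      cases h
      exact Sub.nil
  | cons a x ih =>
    constructor
    · intro h
      cases h with
      | cons h1 h2 => exact Sub.cons h1 (ih.1 h2)
    · intro h
      cases h with
      | cons h1 h2 => exact Sub.cons h1 (ih.2 h2)

theorem Sub.map_right {x : List α} {y : List β} {e : β → γ} (h : Sub f x y) :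
    Sub (fun a w => ∃ w', f a w' ∧ w = w'.map e) x (y.map e) := by
  induction h with
  | nil => exact Sub.nil
  | cons h1 _ ih =>
    rw [List.map_append]
    exact Sub.cons ⟨_, h1, rfl⟩ ih

theorem Sub.map_right_inv {x : List α} {y : List γ} {e : β → γ}
    (h : Sub (fun a w => ∃ w', f a w' ∧ w = w'.map e) x y) : ∃ y', y = y'.map e ∧ Sub f x y' := by
  induction h with
  | nil => exact ⟨[], rfl, Sub.nil⟩
  | cons h1 _ ih =>
    obtain ⟨w', h3, rfl⟩ := h1
    obtain ⟨y', rfl, h4⟩ := ih
    exact ⟨w' ++ y', (List.map_append ..).symm, Sub.cons h3 h4⟩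

theorem Sub.comp {x : List α} {y : List β} {z : List γ} {k : β → List γ → Prop}
    (h : Sub f x y) (h' : Sub k y z) : Sub (fun a w => ∃ u, f a u ∧ Sub k u w) x z := by
  induction h generalizing z with
  | nil =>
    cases h'
    exact Sub.nil
  | cons h1 _ ih =>
    obtain ⟨z₁, z₂, rfl, h3, h4⟩ := h'.append_inv
    exact Sub.cons ⟨_, h1, h3⟩ (ih h4)

theorem Sub.self {f : α → List α → Prop} (x : List α) (h : ∀ a ∈ x, f a [a]) : Sub f x x := by
  induction x with
  | nil => exact Sub.nil
  | cons a x ih =>
    exact Sub.cons (w := [a]) (h a (List.mem_cons_self ..))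
      (ih fun b hb => h b (List.mem_cons_of_mem _ hb))

theorem Sub.single {a : α} {w : List β} (h : f a w) : Sub f [a] w := by
  have h1 := Sub.cons h (Sub.nil (f := f))
  rwa [List.append_nil] at h1

theorem Sub.exists_pre {x : List α} {y : List β} (h : Sub f x y) {b : β} (hb : b ∈ y) :
    ∃ a ∈ x, ∃ w, f a w ∧ b ∈ w := by
  induction h with
  | nil => cases hb
  | cons h1 _ ih =>
    rcases List.mem_append.1 hb with h3 | h3
    · exact ⟨_, List.mem_cons_self .., _, h1, h3⟩
    · obtain ⟨a, h4, w, h5, h6⟩ := ih h3
      exact ⟨a, List.mem_cons_of_mem _ h4, w, h5, h6⟩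

end Sub

/-- An ET0L system with terminal alphabet `T`: a finite alphabet `V`, a finite nonempty set `H` of
tables, each of which gives to each letter a finite nonempty set of words, an axiom `ax`, which is
a nonempty word, and the embedding `term` of the terminal alphabet into `V`. -/
structure ET0L (T : Type) where
  /-- the alphabet -/
  V : Type
  finV : Finite V
  /-- the tables -/
  H : Type
  finH : Finite H
  neH : Nonempty H
  /-- `tab h c` is the set of words that the table `h` gives to the letter `c` -/
  tab : H → V → Set (List V)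
  tab_fin : ∀ h c, (tab h c).Finite
  tab_ne : ∀ h c, (tab h c).Nonempty
  /-- the axiom -/
  ax : List V
  ax_ne : ax ≠ []
  /-- the terminal letters -/
  term : T → V
  term_inj : Function.Injective term

namespace ET0L

variable {T : Type} (G : ET0L T)

/-- A derivation step: one table rewrites all occurrences of letters. -/
def Step (x y : List G.V) : Prop := ∃ h, Sub (fun c w => w ∈ G.tab h c) x y

/-- The generated language: the words over the terminal alphabet derivable from the axiom. -/
def language : Set (List T) := {w | ReflTransGen G.Step G.ax (w.map G.term)}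

/-- `G` is `k`-restricted: each table `h` rewrites at most `k` letters `c` otherwise than to
themselves, that is, with `h(c) ≠ {c}`. -/
def Restricted (k : ℕ) : Prop := ∀ h, {c | G.tab h c ≠ {[c]}}.ncard ≤ k

end ET0L

/-- A control program. `tr j a j'`: in the state `j` the control can go to the state `j'`, if the
letter `a` (if there is any) does not occur in the word. `rule q d`: in the state `q` all
occurrences of `d` can be replaced by words in this set, if it is nonempty. -/
structure Prog (T : Type) where
  D : Type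
  Q : Type
  finD : Finite D
  finQ : Finite Q
  tr : Q → Option D → Q → Prop
  tr_ne : ∀ j a j', tr j a j' → j ≠ j'
  rule : Q → D → Set (List D)
  rule_fin : ∀ q d, (rule q d).Finite
  q0 : Q
  z : Q
  ax : List D
  ax_ne : ax ≠ []
  term : T → D
  term_inj : Function.Injective term
  inert : ∀ q t, rule q (term t) = ∅

namespace Prog

variable {T : Type} (P : Prog T)

/-- One step of a program. -/
inductive PStep : P.Q × List P.D → P.Q × List P.D → Prop
  | tr {j : P.Q} {a : Option P.D} {j' : P.Q} {x : List P.D} : P.tr j a j' →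
      (∀ d, a = some d → d ∉ x) → PStep (j, x) (j', x)
  | data {q : P.Q} {d : P.D} {x y : List P.D} : (P.rule q d).Nonempty →
      Sub (fun c w => (c = d ∧ w ∈ P.rule q d) ∨ (c ≠ d ∧ w = [c])) x y → PStep (q, x) (q, y)

/-- Reachability from the start. -/
def Reach (q : P.Q) (x : List P.D) : Prop := ReflTransGen P.PStep (P.q0, P.ax) (q, x)

/-- The language of a program. -/
def language : Set (List T) := {w | P.Reach P.z (w.map P.term)}

/-- Letters of the simulating system: data letters, blockers and a dead letter. -/
abbrev L : Type := Option (P.D ⊕ P.Q)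

variable {P}

/-- a data letter -/
def dat (d : P.D) : P.L := some (Sum.inl d)

/-- a blocker -/
def blk (q : P.Q) : P.L := some (Sum.inr q)

@[simp] theorem dat_inj {d e : P.D} : (dat d : P.L) = dat e ↔ d = e := by
  simp [dat]

@[simp] theorem blk_inj {d e : P.Q} : (blk d : P.L) = blk e ↔ d = e := by
  simp [blk]

@[simp] theorem dat_ne_blk {d : P.D} {q : P.Q} : (dat d : P.L) ≠ blk q := by
  simp [dat, blk]

@[simp] theorem blk_ne_dat {d : P.D} {q : P.Q} : (blk q : P.L) ≠ dat d := by
  simp [dat, blk]

@[simp] theorem dat_ne_none {d : P.D} : (dat d : P.L) ≠ none := by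
  simp [dat]

@[simp] theorem blk_ne_none {q : P.Q} : (blk q : P.L) ≠ none := by
  simp [blk]

@[simp] theorem none_ne_dat {d : P.D} : (none : P.L) ≠ dat d := by
  simp [dat]

@[simp] theorem none_ne_blk {q : P.Q} : (none : P.L) ≠ blk q := by
  simp [blk]

variable (P)

open Classical in
/-- The table for the transition from `j` to `j'` with the test `a`. -/
noncomputable def tabT (j : P.Q) (a : Option P.D) (j' : P.Q) (c : P.L) : Set (List P.L) :=
  if P.tr j a j' then
    if c = blk j' then {[blk j]} else if c = blk j then {[none]}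
    else if ∃ d, a = some d ∧ c = dat d then {[none]} else {[c]}
  else {[c]}

open Classical in
/-- The table for the rules for `d` in the state `q`. -/
noncomputable def tabR (q : P.Q) (d : P.D) (c : P.L) : Set (List P.L) :=
  if (P.rule q d).Nonempty then
    if c = dat d then (fun w => w.map dat) '' P.rule q d
    else if c = blk q then {[none]} else {[c]}
  else {[c]}

open Classical in
/-- The table that erases the blocker of `i` in the state `z`. -/
noncomputable def tabE (i : P.Q) (c : P.L) : Set (List P.L) :=
  if i ≠ P.z then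
    if c = blk i then {[]} else if c = blk P.z then {[none]} else {[c]}
  else {[c]}

/-- The tables of the simulating system. -/
noncomputable def tab : (P.Q × Option P.D × P.Q) ⊕ (P.Q × P.D) ⊕ P.Q → P.L → Set (List P.L)
  | .inl t => P.tabT t.1 t.2.1 t.2.2
  | .inr (.inl t) => P.tabR t.1 t.2
  | .inr (.inr i) => P.tabE i

theorem tab_fin (h : (P.Q × Option P.D × P.Q) ⊕ (P.Q × P.D) ⊕ P.Q) (c : P.L) :
    (P.tab h c).Finite := by
  rcases h with ⟨j, a, j'⟩ | ⟨q, d⟩ | i
  · change (P.tabT j a j' c).Finite
    unfold tabT
    split_ifs <;> exact Set.finite_singleton _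
  · change (P.tabR q d c).Finite
    unfold tabR
    split_ifs
    · exact (P.rule_fin q d).image _
    all_goals exact Set.finite_singleton _
  · change (P.tabE i c).Finite
    unfold tabE
    split_ifs <;> exact Set.finite_singleton _

theorem tab_ne (h : (P.Q × Option P.D × P.Q) ⊕ (P.Q × P.D) ⊕ P.Q) (c : P.L) :
    (P.tab h c).Nonempty := by
  rcases h with ⟨j, a, j'⟩ | ⟨q, d⟩ | i
  · change (P.tabT j a j' c).Nonempty
    unfold tabT
    split_ifs <;> exact Set.singleton_nonempty _
  · change (P.tabR q d c).Nonempty
    unfold tabR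
    split_ifs with h1
    · exact h1.image _
    all_goals exact Set.singleton_nonempty _
  · change (P.tabE i c).Nonempty
    unfold tabE
    split_ifs <;> exact Set.singleton_nonempty _

theorem tab_none (h : (P.Q × Option P.D × P.Q) ⊕ (P.Q × P.D) ⊕ P.Q) (w : List P.L)
    (hw : w ∈ P.tab h none) : none ∈ w := by
  rcases h with ⟨j, a, j'⟩ | ⟨q, d⟩ | i
  · change w ∈ P.tabT j a j' none at hw
    unfold tabT at hw
    simp only [none_ne_blk, none_ne_dat, and_false, exists_false, if_false, ite_self] at hw
    rw [Set.mem_singleton_iff.1 hw]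
    exact List.mem_singleton_self _
  · change w ∈ P.tabR q d none at hw
    unfold tabR at hw
    simp only [none_ne_blk, none_ne_dat, if_false, ite_self] at hw
    rw [Set.mem_singleton_iff.1 hw]
    exact List.mem_singleton_self _
  · change w ∈ P.tabE i none at hw
    unfold tabE at hw
    simp only [none_ne_blk, if_false, ite_self] at hw
    rw [Set.mem_singleton_iff.1 hw]
    exact List.mem_singleton_self _

/-- The simulating system, with axiom `B ++ ax`, where `B` is a list of blockers. -/
noncomputable def sys (B : List P.Q) : ET0L T where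
  V := P.L
  finV := by
    have := P.finD
    have := P.finQ
    infer_instance
  H := (P.Q × Option P.D × P.Q) ⊕ (P.Q × P.D) ⊕ P.Q
  finH := by
    have := P.finD
    have := P.finQ
    infer_instance
  neH := ⟨.inr (.inr P.z)⟩
  tab := P.tab
  tab_fin := P.tab_fin
  tab_ne := P.tab_ne
  ax := B.map blk ++ P.ax.map dat
  ax_ne := by
    intro h
    have h1 := (List.append_eq_nil_iff.1 h).2
    exact P.ax_ne (List.map_eq_nil_iff.1 h1)
  term := fun t => dat (P.term t)
  term_inj := fun s t h => P.term_inj (dat_inj.1 h)

theorem ncard_three {α : Type} (a b c : α) : ({a, b, c} : Set α).ncard ≤ 3 := by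
  have h1 := Set.ncard_insert_le a {b, c}
  have h2 := Set.ncard_insert_le b {c}
  have h3 := Set.ncard_singleton c
  omega

theorem restricted (B : List P.Q) : (P.sys B).Restricted 3 := by
  intro h
  have hf : Finite P.L := (P.sys B).finV
  rcases h with ⟨j, a, j'⟩ | ⟨q, d⟩ | i
  · refine (Set.ncard_le_ncard (t := {blk j', blk j, a.elim none dat}) ?_
      (Set.toFinite _)).trans (ncard_three _ _ _)
    intro c hc
    by_contra hn
    apply hc
    simp only [Set.mem_insert_iff, Set.mem_singleton_iff, not_or] at hn
    obtain ⟨h1, h2, h3⟩ := hn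
    change P.tabT j a j' c = _
    unfold tabT
    have h4 : ¬ ∃ d, a = some d ∧ c = dat d := by
      rintro ⟨d, rfl, rfl⟩
      exact h3 rfl
    rw [if_neg h1, if_neg h2, if_neg h4, ite_self]
    rfl
  · refine (Set.ncard_le_ncard (t := {dat d, blk q, blk q}) ?_
      (Set.toFinite _)).trans (ncard_three _ _ _)
    intro c hc
    by_contra hn
    apply hc
    simp only [Set.mem_insert_iff, Set.mem_singleton_iff, not_or] at hn
    obtain ⟨h1, h2, h3⟩ := hn
    change P.tabR q d c = _
    unfold tabR
    rw [if_neg h1, if_neg h2, ite_self]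
    rfl
  · refine (Set.ncard_le_ncard (t := {blk i, blk P.z, blk P.z}) ?_
      (Set.toFinite _)).trans (ncard_three _ _ _)
    intro c hc
    by_contra hn
    apply hc
    simp only [Set.mem_insert_iff, Set.mem_singleton_iff, not_or] at hn
    obtain ⟨h1, h2, h3⟩ := hn
    change P.tabE i c = _
    unfold tabE
    rw [if_neg h1, if_neg h2, ite_self]
    rfl

/-- The invariant of the derivations. -/
def Inv (u : List P.L) : Prop :=
  none ∈ u ∨
  (∃ (q : P.Q) (B : List P.Q) (x : List P.D), u = B.map blk ++ x.map dat ∧
    (∀ p, p ∈ B ↔ p ≠ q) ∧ P.Reach q x) ∨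
  (∃ (B : List P.Q) (w : List T), u = B.map blk ++ (w.map P.term).map dat ∧
    P.Reach P.z (w.map P.term))

variable {P}

theorem flatMap_single {α β : Type} (x : List α) (e : α → β) :
    x.flatMap (fun a => [e a]) = x.map e := by
  induction x with
  | nil => rfl
  | cons a x ih => rw [List.flatMap_cons, ih]; rfl

open Classical in
theorem tr_blk {j : P.Q} {a : Option P.D} {j' : P.Q} (ht : P.tr j a j') {B : List P.Q}
    (hB : j ∉ B) {u : List P.L} (h : Sub (fun c w => w ∈ P.tabT j a j' c) (B.map blk) u) :
    u = (B.map fun p => if p = j' then j else p).map blk := by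
  rw [Sub.map_left] at h
  rw [h.det (fun p => [blk (if p = j' then j else p)]), flatMap_single, List.map_map]
  · rfl
  · intro p hp w hw
    have hpj : p ≠ j := fun e => hB (e ▸ hp)
    unfold tabT at hw
    rw [if_pos ht] at hw
    by_cases h1 : p = j'
    · rw [if_pos h1]
      rw [if_pos (blk_inj.2 h1)] at hw
      exact hw
    · rw [if_neg h1]
      rw [if_neg (fun e => h1 (blk_inj.1 e)), if_neg (fun e => hpj (blk_inj.1 e)),
        if_neg (by rintro ⟨d, -, h2⟩; exact blk_ne_dat h2)] at hw
      exact hw

theorem tr_blk_none {j : P.Q} {a : Option P.D} {j' : P.Q} (ht : P.tr j a j') {x : List P.L}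
    (hB : blk j ∈ x) {u : List P.L} (h : Sub (fun c w => w ∈ P.tabT j a j' c) x u) :
    none ∈ u := by
  refine h.mem hB fun w hw => ?_
  unfold tabT at hw
  rw [if_pos ht, if_neg (fun e => P.tr_ne _ _ _ ht (blk_inj.1 e)), if_pos rfl] at hw
  rw [Set.mem_singleton_iff.1 hw]
  exact List.mem_singleton_self _

theorem tr_dat_none {j : P.Q} {d : P.D} {j' : P.Q} (ht : P.tr j (some d) j') {x : List P.D}
    (hB : d ∈ x) {u : List P.L} (h : Sub (fun c w => w ∈ P.tabT j (some d) j' c) (x.map dat) u) :
    none ∈ u := by
  refine h.mem (List.mem_map_of_mem hB) fun w hw => ?_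
  unfold tabT at hw
  rw [if_pos ht, if_neg dat_ne_blk, if_neg dat_ne_blk, if_pos ⟨d, rfl, rfl⟩] at hw
  rw [Set.mem_singleton_iff.1 hw]
  exact List.mem_singleton_self _

theorem tr_dat {j : P.Q} {a : Option P.D} {j' : P.Q} {x : List P.D}
    (hB : ∀ d, a = some d → d ∉ x) {u : List P.L}
    (h : Sub (fun c w => w ∈ P.tabT j a j' c) (x.map dat) u) : u = x.map dat := by
  rw [Sub.map_left] at h
  rw [h.det (fun p => [dat p]), flatMap_single]
  intro p hp w hw
  unfold tabT at hw
  have h3 : ¬ ∃ d, a = some d ∧ (dat p : P.L) = dat d := by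
    rintro ⟨d, h1, h2⟩
    exact hB d h1 (dat_inj.1 h2 ▸ hp)
  rw [if_neg dat_ne_blk, if_neg dat_ne_blk, if_neg h3, ite_self] at hw
  exact hw

theorem id_of {x : List P.L} {u : List P.L} {f : P.L → Set (List P.L)}
    (hf : ∀ c ∈ x, f c = {[c]}) (h : Sub (fun c w => w ∈ f c) x u) : u = x := by
  rw [h.det (fun p => [p])]
  · rw [flatMap_single, List.map_id']
  · intro c hc w hw
    rw [hf c hc] at hw
    exact hw

theorem blk_mem_left {B : List P.Q} {q : P.Q} {x : List P.D} (h : q ∈ B) :
    (blk q : P.L) ∈ B.map blk ++ x.map dat :=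
  List.mem_append_left _ (List.mem_map_of_mem h)

/-- Tables of rules. -/
theorem rule_dat {q : P.Q} {d : P.D} {x : List P.D} {u : List P.L} (hn : (P.rule q d).Nonempty)
    (h : Sub (fun c w => w ∈ P.tabR q d c) (x.map dat) u) :
    ∃ y : List P.D, u = y.map dat ∧
      Sub (fun c w => (c = d ∧ w ∈ P.rule q d) ∨ (c ≠ d ∧ w = [c])) x y := by
  rw [Sub.map_left] at h
  have h2 : Sub (fun c w => ∃ w', ((c = d ∧ w' ∈ P.rule q d) ∨ (c ≠ d ∧ w' = [c])) ∧
      w = w'.map dat) x u := by
    refine h.mono fun c _ w hw => ?_
    unfold tabR at hw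
    rw [if_pos hn] at hw
    by_cases h1 : c = d
    · rw [if_pos (dat_inj.2 h1)] at hw
      obtain ⟨w', h3, rfl⟩ := hw
      exact ⟨w', Or.inl ⟨h1, h3⟩, rfl⟩
    · rw [if_neg (fun e => h1 (dat_inj.1 e)), if_neg dat_ne_blk] at hw
      exact ⟨[c], Or.inr ⟨h1, rfl⟩, hw⟩
  obtain ⟨y, h3, h4⟩ := h2.map_right_inv
  exact ⟨y, h3, h4⟩

theorem rule_dat' {q : P.Q} {d : P.D} {x y : List P.D} (hn : (P.rule q d).Nonempty)
    (h : Sub (fun c w => (c = d ∧ w ∈ P.rule q d) ∨ (c ≠ d ∧ w = [c])) x y) :
    Sub (fun c w => w ∈ P.tabR q d c) (x.map dat) (y.map dat) := by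
  rw [Sub.map_left]
  refine h.map_right.mono fun c _ w hw => ?_
  obtain ⟨w', h1, rfl⟩ := hw
  unfold tabR
  rw [if_pos hn]
  rcases h1 with ⟨h1, h2⟩ | ⟨h1, h2⟩
  · rw [if_pos (dat_inj.2 h1)]
    exact ⟨w', h2, rfl⟩
  · rw [if_neg (fun e => h1 (dat_inj.1 e)), if_neg dat_ne_blk, h2]
    rfl

theorem rule_none {q : P.Q} {d : P.D} {x u : List P.L} (hn : (P.rule q d).Nonempty)
    (hB : blk q ∈ x) (h : Sub (fun c w => w ∈ P.tabR q d c) x u) : none ∈ u := by
  refine h.mem hB fun w hw => ?_
  unfold tabR at hw
  rw [if_pos hn, if_neg blk_ne_dat, if_pos rfl] at hw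
  rw [Set.mem_singleton_iff.1 hw]
  exact List.mem_singleton_self _

theorem rule_blk {q : P.Q} {d : P.D} {B : List P.Q} (hB : q ∉ B) :
    ∀ c ∈ B.map (blk (P := P)), P.tabR q d c = {[c]} := by
  intro c hc
  obtain ⟨p, hp, rfl⟩ := List.mem_map.1 hc
  unfold tabR
  have h1 : p ≠ q := fun e => hB (e ▸ hp)
  rw [if_neg blk_ne_dat, if_neg (fun e => h1 (blk_inj.1 e)), ite_self]

theorem era_none {i : P.Q} {x u : List P.L} (hi : i ≠ P.z)
    (hB : blk P.z ∈ x) (h : Sub (fun c w => w ∈ P.tabE i c) x u) : none ∈ u := by
  refine h.mem hB fun w hw => ?_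
  unfold tabE at hw
  rw [if_pos hi, if_neg (fun e => hi (blk_inj.1 e).symm), if_pos rfl] at hw
  rw [Set.mem_singleton_iff.1 hw]
  exact List.mem_singleton_self _

theorem era_dat {i : P.Q} {x : List P.D} :
    ∀ c ∈ x.map (dat (P := P)), P.tabE i c = {[c]} := by
  intro c hc
  obtain ⟨p, hp, rfl⟩ := List.mem_map.1 hc
  unfold tabE
  rw [if_neg dat_ne_blk, if_neg dat_ne_blk, ite_self]

open Classical in
theorem era_blk {i : P.Q} (hi : i ≠ P.z) {B : List P.Q} (hB : P.z ∉ B) {u : List P.L}
    (h : Sub (fun c w => w ∈ P.tabE i c) (B.map blk) u) :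
    u = (B.filter fun p => p ≠ i).map blk := by
  rw [Sub.map_left] at h
  rw [h.det (fun p => if p = i then [] else [blk p])]
  · clear h hB
    induction B with
    | nil => rfl
    | cons p B ih =>
      rw [List.flatMap_cons, ih]
      by_cases h1 : p = i
      · simp [h1]
      · simp [h1]
  · intro p hp w hw
    have hpj : p ≠ P.z := fun e => hB (e ▸ hp)
    unfold tabE at hw
    rw [if_pos hi] at hw
    by_cases h1 : p = i
    · rw [if_pos h1]
      rw [if_pos (blk_inj.2 h1)] at hw
      exact hw
    · rw [if_neg h1]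
      rw [if_neg (fun e => h1 (blk_inj.1 e)), if_neg (fun e => hpj (blk_inj.1 e))] at hw
      exact hw

open Classical in
theorem era_blk' {i : P.Q} (hi : i ≠ P.z) {B : List P.Q} (hB : P.z ∉ B) :
    Sub (fun c w => w ∈ P.tabE i c) (B.map blk) ((B.filter fun p => p ≠ i).map blk) := by
  induction B with
  | nil => exact Sub.nil
  | cons p B ih =>
    have ih' := ih fun h => hB (List.mem_cons_of_mem _ h)
    have hp : p ≠ P.z := fun e => hB (e ▸ List.mem_cons_self ..)
    by_cases h1 : p = i
    · have h2 : (blk p : P.L) = blk i := blk_inj.2 h1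
      have h3 : ((p :: B).filter fun p => p ≠ i) = B.filter fun p => p ≠ i := by
        simp [h1]
      rw [h3]
      refine Sub.cons (w := []) ?_ ih'
      unfold tabE
      rw [if_pos hi, if_pos h2]
      rfl
    · have h3 : ((p :: B).filter fun p => p ≠ i) = p :: B.filter fun p => p ≠ i := by
        simp [h1]
      rw [h3]
      refine Sub.cons (w := [blk p]) ?_ ih'
      unfold tabE
      rw [if_pos hi, if_neg (fun e => h1 (blk_inj.1 e)), if_neg (fun e => hp (blk_inj.1 e))]
      rfl

variable (P)

/-- Soundness of the simulation. -/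
theorem inv_step (u v : List P.L) (hu : P.Inv u) (h : ∃ t, Sub (fun c w => w ∈ P.tab t c) u v)
    (hz : ∀ x, P.Reach P.z x → ∃ w : List T, x = w.map P.term) : P.Inv v := by
  classical
  obtain ⟨t, h⟩ := h
  rcases hu with hu | hu | hu
  · exact Or.inl (h.mem hu (P.tab_none t))
  · obtain ⟨q, B, x, rfl, hB, hr⟩ := hu
    rcases t with ⟨j, a, j'⟩ | ⟨q', d⟩ | i
    · change Sub (fun c w => w ∈ P.tabT j a j' c) _ _ at h
      by_cases ht : P.tr j a j'
      · by_cases hq : q = j
        · subst hq
          obtain ⟨u1, u2, rfl, h1, h2⟩ := h.append_inv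
          have h3 := tr_blk ht (fun h => (hB q).1 h rfl) h1
          by_cases hax : ∀ d, a = some d → d ∉ x
          · have h4 := tr_dat hax h2
            refine Or.inr (Or.inl ⟨j', _, x, by rw [h3, h4], ?_, ?_⟩)
            · intro p
              rw [List.mem_map]
              constructor
              · rintro ⟨p', h5, rfl⟩
                by_cases h6 : p' = j'
                · rw [if_pos h6]
                  exact P.tr_ne _ _ _ ht
                · rw [if_neg h6]
                  exact h6
              · intro h5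
                by_cases h6 : p = q
                · exact ⟨j', (hB j').2 (P.tr_ne _ _ _ ht).symm, by rw [if_pos rfl, h6]⟩
                · exact ⟨p, (hB p).2 h6, by rw [if_neg h5]⟩
            · exact hr.tail (PStep.tr ht hax)
          · push Not at hax
            obtain ⟨d, rfl, hd⟩ := hax
            exact Or.inl (List.mem_append_right _ (tr_dat_none ht hd h2))
        · exact Or.inl (tr_blk_none ht (blk_mem_left ((hB j).2 (Ne.symm hq))) h)
      · have h1 := id_of (f := P.tabT j a j') (fun c _ => by unfold tabT; rw [if_neg ht]) h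
        rw [h1]
        exact Or.inr (Or.inl ⟨q, B, x, rfl, hB, hr⟩)
    · change Sub (fun c w => w ∈ P.tabR q' d c) _ _ at h
      by_cases hn : (P.rule q' d).Nonempty
      · by_cases hq : q = q'
        · subst hq
          obtain ⟨u1, u2, rfl, h1, h2⟩ := h.append_inv
          have h3 := id_of (rule_blk fun h => (hB q).1 h rfl) h1
          obtain ⟨y, h4, h5⟩ := rule_dat hn h2
          exact Or.inr (Or.inl ⟨q, B, y, by rw [h3, h4], hB, hr.tail (PStep.data hn h5)⟩)
        · exact Or.inl (rule_none hn (blk_mem_left ((hB q').2 (Ne.symm hq))) h)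
      · have h1 := id_of (f := P.tabR q' d) (fun c _ => by unfold tabR; rw [if_neg hn]) h
        rw [h1]
        exact Or.inr (Or.inl ⟨q, B, x, rfl, hB, hr⟩)
    · change Sub (fun c w => w ∈ P.tabE i c) _ _ at h
      by_cases hi : i ≠ P.z
      · by_cases hq : q = P.z
        · subst hq
          obtain ⟨u1, u2, rfl, h1, h2⟩ := h.append_inv
          have h3 := era_blk hi (fun h => (hB P.z).1 h rfl) h1
          have h4 := id_of era_dat h2
          obtain ⟨w, rfl⟩ := hz x hr
          exact Or.inr (Or.inr ⟨_, w, by rw [h3, h4], hr⟩)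
        · exact Or.inl (era_none hi (blk_mem_left ((hB P.z).2 (Ne.symm hq))) h)
      · have h1 := id_of (f := P.tabE i) (fun c _ => by unfold tabE; rw [if_neg hi]) h
        rw [h1]
        exact Or.inr (Or.inl ⟨q, B, x, rfl, hB, hr⟩)
  · obtain ⟨B, w, rfl, hr⟩ := hu
    rcases t with ⟨j, a, j'⟩ | ⟨q', d⟩ | i
    · change Sub (fun c w => w ∈ P.tabT j a j' c) _ _ at h
      by_cases ht : P.tr j a j'
      · by_cases hj : j ∈ B
        · exact Or.inl (tr_blk_none ht (blk_mem_left hj) h)
        · obtain ⟨u1, u2, rfl, h1, h2⟩ := h.append_inv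
          have h3 := tr_blk ht hj h1
          by_cases hax : ∀ d, a = some d → d ∉ w.map P.term
          · have h4 := tr_dat hax h2
            exact Or.inr (Or.inr ⟨_, w, by rw [h3, h4], hr⟩)
          · push Not at hax
            obtain ⟨d, rfl, hd⟩ := hax
            exact Or.inl (List.mem_append_right _ (tr_dat_none ht hd h2))
      · have h1 := id_of (f := P.tabT j a j') (fun c _ => by unfold tabT; rw [if_neg ht]) h
        rw [h1]
        exact Or.inr (Or.inr ⟨B, w, rfl, hr⟩)
    · change Sub (fun c w => w ∈ P.tabR q' d c) _ _ at h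
      by_cases hn : (P.rule q' d).Nonempty
      · by_cases hq : q' ∈ B
        · exact Or.inl (rule_none hn (blk_mem_left hq) h)
        · obtain ⟨u1, u2, rfl, h1, h2⟩ := h.append_inv
          have h3 := id_of (rule_blk hq) h1
          have h4 : u2 = (w.map P.term).map dat := by
            refine id_of (f := P.tabR q' d) (fun c hc => ?_) h2
            obtain ⟨e, he, rfl⟩ := List.mem_map.1 hc
            obtain ⟨t, -, rfl⟩ := List.mem_map.1 he
            have h5 : P.term t ≠ d := by
              rintro rfl
              rw [P.inert] at hn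
              exact Set.not_nonempty_empty hn
            unfold tabR
            rw [if_neg (fun e => h5 (dat_inj.1 e)), if_neg dat_ne_blk, ite_self]
          exact Or.inr (Or.inr ⟨B, w, by rw [h3, h4], hr⟩)
      · have h1 := id_of (f := P.tabR q' d) (fun c _ => by unfold tabR; rw [if_neg hn]) h
        rw [h1]
        exact Or.inr (Or.inr ⟨B, w, rfl, hr⟩)
    · change Sub (fun c w => w ∈ P.tabE i c) _ _ at h
      by_cases hi : i ≠ P.z
      · by_cases hq : P.z ∈ B
        · exact Or.inl (era_none hi (blk_mem_left hq) h)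
        · obtain ⟨u1, u2, rfl, h1, h2⟩ := h.append_inv
          have h3 := era_blk hi hq h1
          have h4 := id_of era_dat h2
          exact Or.inr (Or.inr ⟨_, w, by rw [h3, h4], hr⟩)
      · have h1 := id_of (f := P.tabE i) (fun c _ => by unfold tabE; rw [if_neg hi]) h
        rw [h1]
        exact Or.inr (Or.inr ⟨B, w, rfl, hr⟩)

theorem sound (B : List P.Q) (hB : ∀ p, p ∈ B ↔ p ≠ P.q0)
    (hz : ∀ x, P.Reach P.z x → ∃ w : List T, x = w.map P.term) :
    (P.sys B).language ⊆ P.language := by
  intro w hw
  have hinv : ∀ u : List P.L, ReflTransGen (P.sys B).Step (P.sys B).ax u → P.Inv u := by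
    intro u hu
    induction hu with
    | refl => exact Or.inr (Or.inl ⟨P.q0, B, P.ax, rfl, hB, ReflTransGen.refl⟩)
    | tail _ h ih => exact P.inv_step _ _ ih h hz
  have h1 := hinv _ hw
  have hnb : ∀ (C : List P.Q) (x : List P.D),
      w.map (fun t => (dat (P.term t) : P.L)) = C.map blk ++ x.map dat → C = [] ∧
        x = w.map P.term := by
    intro C x h
    have hC : C = [] := by
      cases C with
      | nil => rfl
      | cons p C =>
        have h2 : (blk p : P.L) ∈ w.map (fun t => (dat (P.term t) : P.L)) := by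
          rw [h]
          exact List.mem_append_left _ (List.mem_cons_self ..)
        obtain ⟨t, -, h3⟩ := List.mem_map.1 h2
        exact absurd h3 dat_ne_blk
    refine ⟨hC, ?_⟩
    subst hC
    have h3 : (w.map P.term).map (dat (P := P)) = x.map dat := by
      rw [List.map_map]
      exact h
    exact (List.map_injective_iff.2 (fun a b e => dat_inj.1 e) h3).symm
  rcases h1 with h1 | ⟨q, C, x, h1, h2, h3⟩ | ⟨C, v, h1, h3⟩
  · obtain ⟨t, -, h2⟩ := List.mem_map.1 h1
    exact absurd h2 dat_ne_none
  · obtain ⟨rfl, rfl⟩ := hnb C x h1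
    have h4 : P.z = q := by
      by_contra hne
      have := (h2 P.z).2 hne
      cases this
    change P.Reach P.z (w.map P.term)
    rw [h4]
    exact h3
  · obtain ⟨-, h5⟩ := hnb C _ h1
    change P.Reach P.z (w.map P.term)
    rw [← h5]
    exact h3

theorem complete_reach (B : List P.Q) (hB : ∀ p, p ∈ B ↔ p ≠ P.q0) (c : P.Q × List P.D)
    (h : ReflTransGen P.PStep (P.q0, P.ax) c) :
    ∃ C : List P.Q, (∀ p, p ∈ C ↔ p ≠ c.1) ∧
      ReflTransGen (P.sys B).Step (P.sys B).ax (C.map blk ++ c.2.map dat) := by
  classical
  induction h with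
  | refl => exact ⟨B, hB, ReflTransGen.refl⟩
  | tail _ h ih =>
    obtain ⟨C, hC, h2⟩ := ih
    cases h with
    | @tr j a j' x ht hax =>
      refine ⟨C.map fun p => if p = j' then j else p, ?_, h2.tail ⟨.inl (j, a, j'), ?_⟩⟩
      · intro p
        change _ ↔ p ≠ j'
        rw [List.mem_map]
        constructor
        · rintro ⟨p', h5, rfl⟩
          by_cases h6 : p' = j'
          · rw [if_pos h6]
            exact P.tr_ne _ _ _ ht
          · rw [if_neg h6]
            exact h6
        · intro h5
          by_cases h6 : p = j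
          · exact ⟨j', (hC j').2 (P.tr_ne _ _ _ ht).symm, by rw [if_pos rfl, h6]⟩
          · exact ⟨p, (hC p).2 h6, by rw [if_neg h5]⟩
      · change Sub (fun c w => w ∈ P.tabT j a j' c) _ _
        apply Sub.append
        · rw [Sub.map_left, List.map_map]
          have h6 := Sub.of_fun (f := fun p w => w ∈ P.tabT j a j' (blk p)) C
            (fun p => [blk (if p = j' then j else p)]) ?_
          · rw [flatMap_single] at h6
            exact h6
          · intro p hp
            have hpj : p ≠ j := (hC p).1 hp
            unfold tabT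
            rw [if_pos ht]
            by_cases h1 : p = j'
            · rw [if_pos (blk_inj.2 h1), if_pos h1]
              rfl
            · rw [if_neg (fun e => h1 (blk_inj.1 e)), if_neg (fun e => hpj (blk_inj.1 e)),
                if_neg (by rintro ⟨d, -, h2⟩; exact blk_ne_dat h2), if_neg h1]
              rfl
        · rw [Sub.map_left]
          have h6 := Sub.of_fun (f := fun p w => w ∈ P.tabT j a j' (dat p)) x
            (fun p => [dat p]) ?_
          · rw [flatMap_single] at h6
            exact h6
          · intro p hp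
            unfold tabT
            have h3 : ¬ ∃ d, a = some d ∧ (dat p : P.L) = dat d := by
              rintro ⟨d, h1, h2⟩
              exact hax d h1 (dat_inj.1 h2 ▸ hp)
            rw [if_neg dat_ne_blk, if_neg dat_ne_blk, if_neg h3, ite_self]
            rfl
    | @data q d x y hn hs =>
      refine ⟨C, hC, h2.tail ⟨.inr (.inl (q, d)), ?_⟩⟩
      change Sub (fun c w => w ∈ P.tabR q d c) _ _
      apply Sub.append
      · have h6 := Sub.of_fun (f := fun c w => w ∈ P.tabR q d c) (C.map blk)
          (fun p => [p]) ?_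
        · rw [flatMap_single, List.map_id'] at h6
          exact h6
        · intro c hc
          rw [rule_blk (fun h => (hC q).1 h rfl) c hc]
          rfl
      · exact rule_dat' hn hs

theorem erase_all (B : List P.Q) (n : ℕ) : ∀ (C : List P.Q) (x : List P.D), C.length ≤ n →
    P.z ∉ C → ReflTransGen (P.sys B).Step (C.map blk ++ x.map dat) (x.map dat) := by
  classical
  induction n with
  | zero =>
    intro C x h _
    have : C = [] := List.length_eq_zero_iff.1 (Nat.le_zero.1 h)
    subst this
    exact ReflTransGen.refl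
  | succ n ih =>
    intro C x h hz
    cases C with
    | nil => exact ReflTransGen.refl
    | cons i C =>
      have hi : i ≠ P.z := fun e => hz (e ▸ List.mem_cons_self ..)
      refine ReflTransGen.head ⟨.inr (.inr i), ?_⟩ (ih (((i :: C).filter fun p => p ≠ i)) x ?_ ?_)
      · change Sub (fun c w => w ∈ P.tabE i c) _ _
        refine Sub.append (era_blk' hi hz) ?_
        have h6 := Sub.of_fun (f := fun c w => w ∈ P.tabE i c) (x.map dat)
          (fun p => [p]) ?_
        · rw [flatMap_single, List.map_id'] at h6
          exact h6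
        · intro c hc
          rw [era_dat c hc]
          rfl
      · have h1 : ((i :: C).filter fun p => p ≠ i) = C.filter fun p => p ≠ i := by simp
        rw [h1]
        exact (List.length_filter_le _ _).trans (Nat.le_of_succ_le_succ h)
      · intro h1
        exact hz (List.mem_of_mem_filter h1)

theorem complete (B : List P.Q) (hB : ∀ p, p ∈ B ↔ p ≠ P.q0) :
    P.language ⊆ (P.sys B).language := by
  intro w hw
  obtain ⟨C, hC, h1⟩ := P.complete_reach B hB _ hw
  have h2 := P.erase_all B C.length C (w.map P.term) le_rfl (fun h => (hC P.z).1 h rfl)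
  have h3 := h1.trans h2
  change ReflTransGen (P.sys B).Step (P.sys B).ax (w.map fun t => (dat (P.term t) : P.L))
  have h4 : (w.map fun t => (dat (P.term t) : P.L)) = (w.map P.term).map dat := by
    rw [List.map_map]
    rfl
  exact (congrArg (ReflTransGen (P.sys B).Step (P.sys B).ax) h4).mpr h3

/-- The language of a program in which only words over the terminal alphabet can be reached in the
final state is generated by a 3-restricted system. -/
theorem exists_system (hz : ∀ x, P.Reach P.z x → ∃ w : List T, x = w.map P.term) :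
    ∃ G : ET0L T, G.Restricted 3 ∧ G.language = P.language := by
  classical
  have := P.finQ
  have := Fintype.ofFinite P.Q
  have hB : ∀ p, p ∈ ((Finset.univ : Finset P.Q).toList.filter fun p => p ≠ P.q0) ↔
      p ≠ P.q0 := by
    intro p
    simp
  exact ⟨P.sys _, P.restricted _, Set.Subset.antisymm (P.sound _ hB hz) (P.complete _ hB)⟩

end Prog

end Pool.Agent.X247.K3
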