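import Pool.Agent.X247.K3.Prog

set_option autoImplicit false

/-!
# Every ET0L system is simulated by a program
-/

namespace Pool.Agent.X247.K3

open Relation

/-- The states of the program that simulates an ET0L system. -/
inductive St (H : Type) (n : ℕ) : Type
  | idle (b : Bool)
  | proc (b : Bool) (o : Option H)
  | chk (b f : Bool) (i : Fin (n + 1))
  | z

theorem finite_St (H : Type) (n : ℕ) [Finite H] : Finite (St H n) := by
  let φ : St H n → Bool ⊕ (Bool × Option H) ⊕ (Bool × Bool × Fin (n + 1)) ⊕ Unit := fun q =>
    match q with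
    | .idle b => .inl b
    | .proc b o => .inr (.inl (b, o))
    | .chk b f i => .inr (.inr (.inl (b, f, i)))
    | .z => .inr (.inr (.inr ()))
  refine Finite.of_injective φ ?_
  intro p q h
  cases p <;> cases q <;> simp_all [φ]

/-- the two marks used in turn -/
def par (b : Bool) : Fin 3 := if b then 1 else 0

theorem par_ne (b : Bool) : par (!b) ≠ par b := by
  cases b <;> decide

theorem two_ne (b : Bool) : (2 : Fin 3) ≠ par b := by
  cases b <;> decide

namespace Sim

variable {T : Type} (G : ET0L T)

/-- The words that replace the letter `v`; `none` stands for the last step, in which the terminal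
letters get the mark `2`. -/
def F (b : Bool) : Option G.H → G.V → Set (List (G.V × Fin 3))
  | some h, v => (fun w => w.map fun c => (c, par (!b))) '' G.tab h v
  | none, v => {w | (∃ t, G.term t = v) ∧ w = [(v, 2)]}

theorem F_fin (b : Bool) (o : Option G.H) (v : G.V) : (F G b o v).Finite := by
  cases o with
  | some h => exact (G.tab_fin h v).image _
  | none => exact (Set.finite_singleton [(v, (2 : Fin 3))]).subset fun w hw => hw.2

theorem F_mark {b : Bool} {o : Option G.H} {v : G.V} {w : List (G.V × Fin 3)}
    (hw : w ∈ F G b o v) {d : G.V × Fin 3} (hd : d ∈ w) : d.2 ≠ par b := by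
  cases o with
  | some h =>
    obtain ⟨w', -, rfl⟩ := hw
    obtain ⟨c, -, rfl⟩ := List.mem_map.1 hd
    exact par_ne b
  | none =>
    obtain ⟨-, rfl⟩ := hw
    rw [List.mem_singleton.1 hd]
    exact two_ne b

variable {G} {n : ℕ} (e : Fin n ≃ G.V)

/-- The transitions. -/
inductive Tr : St G.H n → Option (G.V × Fin 3) → St G.H n → Prop
  | start (b : Bool) (o : Option G.H) : Tr (.idle b) none (.proc b o)
  | stop (b : Bool) (o : Option G.H) : Tr (.proc b o) none (.chk b o.isNone 0)
  | test (b f : Bool) (i : Fin n) :
      Tr (.chk b f i.castSucc) (some (e i, par b)) (.chk b f i.succ)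
  | next (b : Bool) : Tr (.chk b false (Fin.last n)) none (.idle (!b))
  | final (b : Bool) : Tr (.chk b true (Fin.last n)) none .z

/-- The program that simulates `G`. -/
def prog : Prog T where
  D := G.V × Fin 3
  Q := St G.H n
  finD := by
    have := G.finV
    infer_instance
  finQ := by
    have := G.finH
    exact finite_St _ _
  tr := Tr e
  tr_ne := by
    intro j a j' h
    cases h with
    | start b o => intro h; cases h
    | stop b o => intro h; cases h
    | test b f i =>
      intro h
      have h1 : i.castSucc = i.succ := by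
        injection h
      have := congrArg Fin.val h1
      simp at this
    | next b => intro h; cases h
    | final b => intro h; cases h
  rule := fun q d => {w | ∃ b o, q = .proc b o ∧ d.2 = par b ∧ w ∈ F G b o d.1}
  rule_fin := by
    intro q d
    cases q with
    | proc b o =>
      refine (F_fin G b o d.1).subset ?_
      rintro w ⟨b', o', h1, -, h2⟩
      cases h1
      exact h2
    | idle b => exact Set.finite_empty.subset (by rintro w ⟨b', o', h1, -⟩; cases h1)
    | chk b f i => exact Set.finite_empty.subset (by rintro w ⟨b', o', h1, -⟩; cases h1)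
    | z => exact Set.finite_empty.subset (by rintro w ⟨b', o', h1, -⟩; cases h1)
  q0 := .idle false
  z := .z
  ax := G.ax.map fun c => (c, par false)
  ax_ne := fun h => G.ax_ne (List.map_eq_nil_iff.1 h)
  term := fun t => (G.term t, 2)
  term_inj := fun s t h => G.term_inj (Prod.ext_iff.1 h).1
  inert := by
    intro q t
    ext w
    simp only [Set.mem_setOf_eq, Set.mem_empty_iff_false, iff_false]
    rintro ⟨b, o, -, h, -⟩
    exact two_ne b h

/-- Partial replacement. -/
def R (b : Bool) (o : Option G.H) (c : G.V) (w : List (G.V × Fin 3)) : Prop :=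
  w = [(c, par b)] ∨ w ∈ F G b o c

/-- The invariant. -/
def PInv : St G.H n → List (G.V × Fin 3) → Prop
  | .idle b, y => ∃ x, ReflTransGen G.Step G.ax x ∧ y = x.map fun c => (c, par b)
  | .proc b o, y => ∃ x, ReflTransGen G.Step G.ax x ∧ Sub (R b o) x y
  | .chk b f i, y => ∃ x o, o.isNone = f ∧ ReflTransGen G.Step G.ax x ∧ Sub (R b o) x y ∧
      ∀ j : Fin n, j.val < i.val → (e j, par b) ∉ y
  | .z, y => ∃ w : List T, ReflTransGen G.Step G.ax (w.map G.term) ∧
      y = w.map fun t => (G.term t, 2)

theorem full {b : Bool} {o : Option G.H} {x : List G.V} {y : List (G.V × Fin 3)}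
    (h : Sub (R b o) x y) (hy : ∀ v, (v, par b) ∉ y) : Sub (fun c w => w ∈ F G b o c) x y := by
  induction h with
  | nil => exact Sub.nil
  | cons h1 _ ih =>
    refine Sub.cons ?_ (ih fun v hv => hy v (List.mem_append_right _ hv))
    rcases h1 with h1 | h1
    · exact absurd (List.mem_append_left _ (h1 ▸ List.mem_singleton_self _)) (hy _)
    · exact h1

theorem pinv_step (q : St G.H n) (y : List (G.V × Fin 3)) (q' : St G.H n)
    (y' : List (G.V × Fin 3)) (h : (prog e).PStep (q, y) (q', y')) (hi : PInv e q y) :
    PInv e q' y' := by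
  cases h with
  | tr ht hax =>
    change Tr e q _ q' at ht
    cases ht with
    | start b o =>
      obtain ⟨x, h1, rfl⟩ := hi
      refine ⟨x, h1, ?_⟩
      have h2 := Sub.of_fun (f := R b o) x (fun c => [(c, par b)]) (fun c _ => Or.inl rfl)
      rw [Prog.flatMap_single] at h2
      exact h2
    | stop b o =>
      obtain ⟨x, h1, h2⟩ := hi
      exact ⟨x, o, rfl, h1, h2, fun j hj => absurd hj (Nat.not_lt_zero _)⟩
    | test b f i =>
      obtain ⟨x, o, h0, h1, h2, h3⟩ := hi
      refine ⟨x, o, h0, h1, h2, fun j hj => ?_⟩
      rcases Nat.lt_succ_iff_lt_or_eq.1 hj with h4 | h4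
      · exact h3 j h4
      · have h5 : j = i := Fin.ext h4
        rw [h5]
        exact hax _ rfl
    | next b =>
      obtain ⟨x, o, h0, h1, h2, h3⟩ := hi
      have h4 : ∀ v, (v, par b) ∉ y := by
        intro v
        have := h3 (e.symm v) (e.symm v).isLt
        rwa [e.apply_symm_apply] at this
      cases o with
      | none => cases h0
      | some h =>
        have h5 := full h2 h4
        have h6 : Sub (fun c w => ∃ w', w' ∈ G.tab h c ∧ w = w'.map fun c => (c, par (!b))) x y := by
          refine h5.mono fun c _ w hw => ?_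
          obtain ⟨w', h7, rfl⟩ := hw
          exact ⟨w', h7, rfl⟩
        obtain ⟨y', h7, h8⟩ := h6.map_right_inv
        exact ⟨y', h1.tail ⟨h, h8⟩, h7⟩
    | final b =>
      obtain ⟨x, o, h0, h1, h2, h3⟩ := hi
      have h4 : ∀ v, (v, par b) ∉ y := by
        intro v
        have := h3 (e.symm v) (e.symm v).isLt
        rwa [e.apply_symm_apply] at this
      cases o with
      | some h => cases h0
      | none =>
        have h5 := full h2 h4
        have h6 : ∃ w : List T, x = w.map G.term ∧ y = w.map fun t => (G.term t, (2 : Fin 3)) := by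
          clear h1 h2 h3 h4 hax
          induction h5 with
          | nil => exact ⟨[], rfl, rfl⟩
          | cons h7 _ ih =>
            obtain ⟨w, rfl, rfl⟩ := ih
            obtain ⟨⟨t, rfl⟩, rfl⟩ := h7
            exact ⟨t :: w, rfl, rfl⟩
        obtain ⟨w, rfl, h7⟩ := h6
        exact ⟨w, h1, h7⟩
  | @data q d x y hn hs =>
    obtain ⟨w0, b, o, rfl, hd, -⟩ := hn
    obtain ⟨x0, h1, h2⟩ := hi
    refine ⟨x0, h1, ?_⟩
    refine (h2.comp hs).mono fun c _ w hw => ?_
    obtain ⟨u, h3, h4⟩ := hw
    rcases h3 with rfl | h3
    · cases h4 with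
      | @cons _ w1 _ _ h5 h6 =>
        cases h6
        rw [List.append_nil]
        rcases h5 with ⟨h5, b', o', h7, h8, h9⟩ | ⟨h5, h6⟩
        · cases h7
          rw [← h5] at h9
          exact Or.inr h9
        · exact Or.inl h6
    · right
      have h5 : w = u.flatMap fun c => [c] := by
        refine h4.det _ fun a ha v hv => ?_
        rcases hv with ⟨h6, h7⟩ | ⟨h6, h7⟩
        · exact absurd (h6 ▸ hd) (F_mark G h3 ha)
        · exact h7
      rw [Prog.flatMap_single, List.map_id'] at h5
      rw [h5]
      exact h3

theorem reach_pinv (q : St G.H n) (y : List (G.V × Fin 3)) (h : (prog e).Reach q y) :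
    PInv e q y := by
  have h1 : ∀ c : St G.H n × List (G.V × Fin 3),
      ReflTransGen (prog e).PStep ((prog e).q0, (prog e).ax) c → PInv e c.1 c.2 := by
    intro c hc
    induction hc with
    | refl => exact ⟨G.ax, ReflTransGen.refl, rfl⟩
    | tail _ h ih => exact pinv_step e _ _ _ _ h ih
  exact h1 _ h

theorem sub_list {α β : Type} {f : α → List β → Prop} {x : List α} {y : List β}
    (h : Sub f x y) : ∃ l : List (α × List β), x = l.map Prod.fst ∧ y = l.flatMap Prod.snd ∧
      ∀ p ∈ l, f p.1 p.2 := by
  induction h with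
  | nil => exact ⟨[], rfl, rfl, fun p hp => by cases hp⟩
  | @cons a w x y h1 _ ih =>
    obtain ⟨l, rfl, rfl, h2⟩ := ih
    refine ⟨(a, w) :: l, rfl, rfl, fun p hp => ?_⟩
    rcases List.mem_cons.1 hp with rfl | hp
    · exact h1
    · exact h2 p hp

/-- Intermediate words: the letters with number less than `i` are replaced. -/
def Y (b : Bool) (i : ℕ) (l : List (G.V × List (G.V × Fin 3))) : List (G.V × Fin 3) :=
  l.flatMap fun p => if (e.symm p.1).val < i then p.2 else [(p.1, par b)]

theorem y_step (b : Bool) (o : Option G.H) (i : Fin n) (l : List (G.V × List (G.V × Fin 3)))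
    (hl : ∀ p ∈ l, p.2 ∈ F G b o p.1) :
    ReflTransGen (prog e).PStep (.proc b o, Y e b i.val l) (.proc b o, Y e b (i.val + 1) l) := by
  by_cases hn : (F G b o (e i)).Nonempty
  · refine ReflTransGen.single (Prog.PStep.data (d := (e i, par b)) ?_ ?_)
    · obtain ⟨w, hw⟩ := hn
      exact ⟨w, b, o, rfl, rfl, hw⟩
    · clear hn
      induction l with
      | nil => exact Sub.nil
      | cons p l ih =>
        unfold Y
        rw [List.flatMap_cons, List.flatMap_cons]
        refine Sub.append ?_ (ih fun p hp => hl p (List.mem_cons_of_mem _ hp))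
        have hp := hl p (List.mem_cons_self ..)
        by_cases h1 : (e.symm p.1).val < i.val
        · rw [if_pos h1, if_pos (by omega)]
          refine Sub.self _ fun c hc => Or.inr ⟨?_, rfl⟩
          rintro rfl
          exact F_mark G hp hc rfl
        · rw [if_neg h1]
          by_cases h2 : (e.symm p.1).val = i.val
          · rw [if_pos (by omega)]
            have h3 : p.1 = e i := by
              rw [← e.apply_symm_apply p.1]
              exact congrArg e (Fin.ext h2)
            exact Sub.single (Or.inl ⟨by rw [h3], b, o, rfl, rfl, by rw [← h3]; exact hp⟩)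
          · rw [if_neg (by omega)]
            refine Sub.cons (w := [(p.1, par b)]) (Or.inr ⟨?_, rfl⟩) Sub.nil
            intro h3
            apply h2
            have h4 : p.1 = e i := (Prod.ext_iff.1 h3).1
            rw [h4, e.symm_apply_apply]
  · have h1 : Y e b (i.val + 1) l = Y e b i.val l := by
      unfold Y
      refine List.flatMap_congr fun p hp => ?_
      by_cases h1 : (e.symm p.1).val < i.val
      · rw [if_pos h1, if_pos (by omega)]
      · rw [if_neg h1]
        by_cases h2 : (e.symm p.1).val = i.val
        · exfalso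
          apply hn
          have h3 : p.1 = e i := by
            rw [← e.apply_symm_apply p.1]
            exact congrArg e (Fin.ext h2)
          exact ⟨p.2, h3 ▸ hl p hp⟩
        · rw [if_neg (by omega)]
    rw [h1]

theorem y_all (b : Bool) (o : Option G.H) (l : List (G.V × List (G.V × Fin 3)))
    (hl : ∀ p ∈ l, p.2 ∈ F G b o p.1) (i : ℕ) (hi : i ≤ n) :
    ReflTransGen (prog e).PStep (.proc b o, Y e b 0 l) (.proc b o, Y e b i l) := by
  induction i with
  | zero => exact ReflTransGen.refl
  | succ i ih => exact (ih (by omega)).trans (y_step e b o ⟨i, by omega⟩ l hl)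

theorem round (b : Bool) (o : Option G.H) (x : List G.V) (y : List (G.V × Fin 3))
    (h : Sub (fun c w => w ∈ F G b o c) x y) :
    ReflTransGen (prog e).PStep (.idle b, x.map fun c => (c, par b))
      (.chk b o.isNone (Fin.last n), y) := by
  have hy : ∀ v, (v, par b) ∉ y := by
    intro v hv
    obtain ⟨a, -, w, h1, h2⟩ := h.exists_pre hv
    exact F_mark G h1 h2 rfl
  obtain ⟨l, rfl, rfl, hl⟩ := sub_list h
  refine ReflTransGen.head (b := (.proc b o, Y e b 0 l)) ?_ ?_
  · have h1 : Y e b 0 l = (l.map Prod.fst).map fun c => (c, par b) := by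
      unfold Y
      rw [List.map_map]
      have h2 : (fun p : G.V × List (G.V × Fin 3) => if (e.symm p.1).val < 0 then p.2
          else [(p.1, par b)]) = fun p => [(p.1, par b)] := by
        funext p
        rw [if_neg (Nat.not_lt_zero _)]
      rw [h2, Prog.flatMap_single]
      rfl
    rw [h1]
    exact Prog.PStep.tr (P := prog e) (Tr.start b o) (fun d h => by cases h)
  refine (y_all e b o l hl n le_rfl).trans ?_
  have h1 : Y e b n l = l.flatMap Prod.snd := by
    unfold Y
    refine List.flatMap_congr fun p _ => ?_
    rw [if_pos (e.symm p.1).isLt]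
  rw [h1]
  refine ReflTransGen.head (b := (.chk b o.isNone 0, l.flatMap Prod.snd)) ?_ ?_
  · exact Prog.PStep.tr (P := prog e) (Tr.stop b o) (fun d h => by cases h)
  have h2 : ∀ i : ℕ, ∀ hi : i < n + 1, ReflTransGen (prog e).PStep
      (.chk b o.isNone 0, l.flatMap Prod.snd) (.chk b o.isNone ⟨i, hi⟩, l.flatMap Prod.snd) := by
    intro i
    induction i with
    | zero => exact fun _ => ReflTransGen.refl
    | succ i ih =>
      intro hi
      refine (ih (by omega)).tail ?_
      refine Prog.PStep.tr (P := prog e) (Tr.test b o.isNone ⟨i, by omega⟩) fun d hd => ?_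
      cases hd
      exact hy _
  exact h2 n (Nat.lt_succ_self n)

theorem reach_of_derives (x : List G.V) (h : ReflTransGen G.Step G.ax x) :
    ∃ b, (prog e).Reach (.idle b) (x.map fun c => (c, par b)) := by
  induction h with
  | refl => exact ⟨false, ReflTransGen.refl⟩
  | @tail x y _ hs ih =>
    obtain ⟨b, h1⟩ := ih
    obtain ⟨t, h2⟩ := hs
    refine ⟨!b, (h1.trans (round e b (some t) x (y.map fun c => (c, par (!b))) ?_)).tail ?_⟩
    · refine h2.map_right.mono fun c _ w hw => ?_
      obtain ⟨w', h3, rfl⟩ := hw
      exact ⟨w', h3, rfl⟩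
    · exact Prog.PStep.tr (P := prog e) (Tr.next b) (fun d h => by cases h)

theorem language_prog : (prog e).language = G.language := by
  ext w
  constructor
  · intro h
    obtain ⟨v, h1, h2⟩ := reach_pinv e .z _ h
    have h3 : w = v := by
      have h4 : Function.Injective fun t => (G.term t, (2 : Fin 3)) :=
        fun s t h => G.term_inj (Prod.ext_iff.1 h).1
      exact List.map_injective_iff.2 h4 h2
    rw [h3]
    exact h1
  · intro h
    obtain ⟨b, h1⟩ := reach_of_derives e _ h
    refine (h1.trans (round e b none _ (w.map fun t => (G.term t, (2 : Fin 3))) ?_)).tail ?_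
    · rw [Sub.map_left, ← Prog.flatMap_single]
      exact Sub.of_fun w _ fun t _ => ⟨⟨t, rfl⟩, rfl⟩
    · exact Prog.PStep.tr (P := prog e) (Tr.final b) (fun d h => by cases h)

end Sim

/-- Every ET0L language is generated by a 3-restricted ET0L system. -/
theorem exists_three {T : Type} (G : ET0L T) :
    ∃ G' : ET0L T, G'.Restricted 3 ∧ G'.language = G.language := by
  have := G.finV
  obtain ⟨n, ⟨e⟩⟩ := Finite.exists_equiv_fin G.V
  have h := (Sim.prog e.symm).exists_system fun x hx => by
    obtain ⟨w, -, h2⟩ := Sim.reach_pinv e.symm .z x hx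
    exact ⟨w, h2⟩
  obtain ⟨G', h1, h2⟩ := h
  exact ⟨G', h1, h2.trans (Sim.language_prog e.symm)⟩

end Pool.Agent.X247.K3
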