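import Pool.Agent.X247.K3.Sim

set_option autoImplicit false

/-!
# The language of a program is generated by a 2-restricted ET0L system

Every letter `y` has a tester `t y`. The tester is rewritten only by the table `t y → ε, y → F`, and
all other tables that rewrite `y` contain `t y → F`, where `F` is a dead letter. So a word that
contains `y` and `t y` is dead, and a letter which is replaced by a word that contains `t y` tests
that `y` does not occur. In this way a rewriting step can have any number of tests.
-/

namespace Pool.Agent.X247.K3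

open Relation

namespace Prog

variable {T : Type} (P : Prog T)

/-- Letters of the 2-restricted system: `none` is the dead letter, `some (inl y)` the letter `y` and
`some (inr y)` its tester; `y` is a data letter or a state. -/
abbrev M : Type := Option ((P.D ⊕ P.Q) ⊕ (P.D ⊕ P.Q))

variable {P}

/-- a data letter -/
def dl (d : P.D) : P.M := some (.inl (.inl d))

/-- a state letter -/
def st (q : P.Q) : P.M := some (.inl (.inr q))

/-- a base letter -/
def ba (y : P.D ⊕ P.Q) : P.M := some (.inl y)

/-- a tester -/
def te (y : P.D ⊕ P.Q) : P.M := some (.inr y)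

theorem dl_eq (d : P.D) : (dl d : P.M) = ba (.inl d) := rfl

theorem st_eq (q : P.Q) : (st q : P.M) = ba (.inr q) := rfl

@[simp] theorem ba_inj {x y : P.D ⊕ P.Q} : (ba x : P.M) = ba y ↔ x = y := by simp [ba]

@[simp] theorem te_inj {x y : P.D ⊕ P.Q} : (te x : P.M) = te y ↔ x = y := by simp [te]

@[simp] theorem ba_ne_te {x y : P.D ⊕ P.Q} : (ba x : P.M) ≠ te y := by simp [ba, te]

@[simp] theorem te_ne_ba {x y : P.D ⊕ P.Q} : (te x : P.M) ≠ ba y := by simp [ba, te]

@[simp] theorem none_ne_ba {x : P.D ⊕ P.Q} : (none : P.M) ≠ ba x := by simp [ba]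

@[simp] theorem none_ne_te {x : P.D ⊕ P.Q} : (none : P.M) ≠ te x := by simp [te]

@[simp] theorem ba_ne_none {x : P.D ⊕ P.Q} : (ba x : P.M) ≠ none := by simp [ba]

@[simp] theorem te_ne_none {x : P.D ⊕ P.Q} : (te x : P.M) ≠ none := by simp [te]

variable (P)

/-- The tables: transitions, rules, tests, and the erasure of the final state. -/
abbrev HH : Type := (P.Q × Option P.D × P.Q) ⊕ (P.Q × P.D) ⊕ (P.D ⊕ P.Q) ⊕ Unit

/-- the testers of the states other than `q`, from the list `B` of all states -/
noncomputable def others (B : List P.Q) (q : P.Q) : List P.M :=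
  B.flatMap fun p => open Classical in if p = q then [] else [te (.inr p)]

/-- The letter that is rewritten (`act`) by a table, except for tests. -/
def act : P.HH → P.D ⊕ P.Q
  | .inl t => .inr t.1
  | .inr (.inl t) => .inl t.2
  | .inr (.inr (.inl y)) => y
  | .inr (.inr (.inr _)) => .inr P.z

/-- The words for the active letter. -/
noncomputable def img (B : List P.Q) : P.HH → Set (List P.M)
  | .inl t => {w | P.tr t.1 t.2.1 t.2.2 ∧
      w = st t.2.2 :: t.2.1.elim [] fun d => [te (.inl d)]}
  | .inr (.inl t) => (fun w => w.map dl ++ others P B t.1) '' P.rule t.1 t.2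
  | .inr (.inr (.inl _)) => {[none]}
  | .inr (.inr (.inr _)) => {[]}

/-- The word for the tester of the active letter. -/
def timg : P.HH → Set (List P.M)
  | .inl _ => {[none]}
  | .inr (.inl _) => {[none]}
  | .inr (.inr (.inl _)) => {[]}
  | .inr (.inr (.inr _)) => {[none]}

open Classical in
/-- The tables; a table without words for the active letter is the identity. -/
noncomputable def tab2 (B : List P.Q) (h : P.HH) (c : P.M) : Set (List P.M) :=
  if (img P B h).Nonempty then
    if c = ba (P.act h) then img P B h
    else if c = te (P.act h) then timg P h else {[c]}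
  else {[c]}

theorem img_fin (B : List P.Q) (h : P.HH) : (img P B h).Finite := by
  rcases h with t | t | y | u
  · exact (Set.finite_singleton _).subset fun w hw => hw.2
  · exact (P.rule_fin _ _).image _
  · exact Set.finite_singleton _
  · exact Set.finite_singleton _

theorem timg_eq (h : P.HH) : ∃ w, timg P h = {w} := by
  rcases h with t | t | y | u
  · exact ⟨_, rfl⟩
  · exact ⟨_, rfl⟩
  · exact ⟨_, rfl⟩
  · exact ⟨_, rfl⟩

theorem tab2_fin (B : List P.Q) (h : P.HH) (c : P.M) : (tab2 P B h c).Finite := by
  unfold tab2
  split_ifs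
  · exact img_fin P B h
  · obtain ⟨w, hw⟩ := timg_eq P h
    rw [hw]
    exact Set.finite_singleton _
  · exact Set.finite_singleton _
  · exact Set.finite_singleton _

theorem tab2_ne (B : List P.Q) (h : P.HH) (c : P.M) : (tab2 P B h c).Nonempty := by
  unfold tab2
  split_ifs with h1
  · exact h1
  · obtain ⟨w, hw⟩ := timg_eq P h
    rw [hw]
    exact Set.singleton_nonempty _
  · exact Set.singleton_nonempty _
  · exact Set.singleton_nonempty _

/-- The 2-restricted system; `B` is a list of all states. -/
noncomputable def sys2 (B : List P.Q) : ET0L T where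
  V := P.M
  finV := by
    have := P.finD
    have := P.finQ
    infer_instance
  H := P.HH
  finH := by
    have := P.finD
    have := P.finQ
    infer_instance
  neH := ⟨.inr (.inr (.inr ()))⟩
  tab := tab2 P B
  tab_fin := tab2_fin P B
  tab_ne := tab2_ne P B
  ax := st P.q0 :: P.ax.map dl
  ax_ne := List.cons_ne_nil _ _
  term := fun t => dl (P.term t)
  term_inj := fun s t h => P.term_inj (Sum.inl_injective (ba_inj.1 h))

theorem restricted2 (B : List P.Q) : (sys2 P B).Restricted 2 := by
  intro h
  have hf : Finite P.M := (sys2 P B).finV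
  have h2 : ({ba (P.act h), te (P.act h)} : Set P.M).ncard ≤ 2 := by
    have h1 := Set.ncard_insert_le (ba (P.act h)) {te (P.act h)}
    have h3 := Set.ncard_singleton (te (P.act h))
    omega
  refine (Set.ncard_le_ncard (t := {ba (P.act h), te (P.act h)}) ?_
      (Set.toFinite _)).trans h2
  intro c hc
  by_contra hn
  apply hc
  simp only [Set.mem_insert_iff, Set.mem_singleton_iff, not_or] at hn
  change tab2 P B h c = _
  unfold tab2
  rw [if_neg hn.1, if_neg hn.2, ite_self]
  rfl

/-- A word is dead if it contains the dead letter or a letter and its tester. -/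
def Dead (u : List P.M) : Prop := none ∈ u ∨ ∃ y, ba y ∈ u ∧ te y ∈ u

variable {P}

open Classical in
/-- the word without the testers -/
noncomputable def strip (u : List P.M) : List P.M := u.filter fun c => ¬ ∃ y, c = te y

theorem strip_append (u v : List P.M) : strip (u ++ v) = strip u ++ strip v :=
  List.filter_append ..

theorem strip_te (y : P.D ⊕ P.Q) : strip [te y] = ([] : List P.M) := by
  unfold strip
  rw [List.filter_cons_of_neg]
  · rfl
  · simp

theorem strip_ba (y : P.D ⊕ P.Q) : strip [ba y] = ([ba y] : List P.M) := by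
  unfold strip
  rw [List.filter_cons_of_pos]
  · rfl
  · simp

theorem strip_cons (c : P.M) (u : List P.M) : strip (c :: u) = strip [c] ++ strip u :=
  strip_append [c] u

theorem mem_strip {u : List P.M} {y : P.D ⊕ P.Q} : ba y ∈ strip u ↔ ba y ∈ u := by
  unfold strip
  rw [List.mem_filter]
  simp

theorem strip_map (x : List (P.D ⊕ P.Q)) : strip (x.map ba) = (x.map ba : List P.M) := by
  induction x with
  | nil => rfl
  | cons a x ih => rw [List.map_cons, strip_cons, strip_ba, ih]; rfl

theorem strip_dl (x : List P.D) : strip (x.map dl) = (x.map dl : List P.M) := by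
  have := strip_map (P := P) (x.map Sum.inl)
  rw [List.map_map] at this
  exact this

theorem strip_others (B : List P.Q) (q : P.Q) : strip (others P B q) = ([] : List P.M) := by
  unfold others
  induction B with
  | nil => rfl
  | cons p B ih =>
    rw [List.flatMap_cons, strip_append, ih]
    by_cases h : p = q
    · rw [if_pos h]
      rfl
    · rw [if_neg h, strip_te]
      rfl

theorem mem_others {B : List P.Q} {q p : P.Q} (hp : p ∈ B) (h : p ≠ q) :
    (te (.inr p) : P.M) ∈ others P B q := by
  unfold others
  rw [List.mem_flatMap]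
  exact ⟨p, hp, by rw [if_neg h]; exact List.mem_singleton_self _⟩

theorem of_mem_others {B : List P.Q} {q : P.Q} {c : P.M} (h : c ∈ others P B q) :
    ∃ p, p ≠ q ∧ c = te (.inr p) := by
  unfold others at h
  rw [List.mem_flatMap] at h
  obtain ⟨p, -, hp⟩ := h
  by_cases h1 : p = q
  · rw [if_pos h1] at hp
    cases hp
  · rw [if_neg h1] at hp
    exact ⟨p, h1, List.mem_singleton.1 hp⟩

theorem strip_sub {f g : P.M → List P.M → Prop} {u v : List P.M} (h : Sub f u v)
    (h1 : ∀ y, te y ∈ u → ∀ w, f (te y) w → strip w = [])
    (h2 : ∀ c ∈ u, (∀ y, c ≠ te y) → ∀ w, f c w → g c (strip w)) :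
    Sub g (strip u) (strip v) := by
  induction h with
  | nil => exact Sub.nil
  | @cons a w x y' h3 _ ih =>
    have ih' := ih (fun y hy => h1 y (List.mem_cons_of_mem _ hy))
      (fun c hc => h2 c (List.mem_cons_of_mem _ hc))
    rw [strip_cons, strip_append]
    by_cases h4 : ∃ y, a = te y
    · obtain ⟨y, rfl⟩ := h4
      rw [strip_te, h1 y (List.mem_cons_self ..) w h3]
      exact ih'
    · have h5 : strip [a] = [a] := by
        unfold strip
        rw [List.filter_cons_of_pos]
        · rfl
        · simpa using h4
      rw [h5]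
      exact Sub.cons (h2 a (List.mem_cons_self ..) (fun y hy => h4 ⟨y, hy⟩) w h3) ih'

theorem id_of' {x : List P.M} {u : List P.M} {f : P.M → Set (List P.M)}
    (hf : ∀ c ∈ x, f c = {[c]}) (h : Sub (fun c w => w ∈ f c) x u) : u = x := by
  rw [h.det (fun p => [p])]
  · rw [flatMap_single, List.map_id']
  · intro c hc w hw
    rw [hf c hc] at hw
    exact hw

variable (P)

theorem dead_step {B : List P.Q} {h : P.HH} {u v : List P.M} (hu : Dead P u)
    (hs : Sub (fun c w => w ∈ tab2 P B h c) u v) : Dead P v := by
  have hid : ∀ c, c ∈ u → c ≠ ba (P.act h) → c ≠ te (P.act h) → c ∈ v := by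
    intro c hc h1 h2
    refine hs.mem hc fun w hw => ?_
    unfold tab2 at hw
    rw [if_neg h1, if_neg h2, ite_self] at hw
    rw [Set.mem_singleton_iff.1 hw]
    exact List.mem_singleton_self _
  rcases hu with hu | ⟨y, h1, h2⟩
  · exact Or.inl (hid _ hu none_ne_ba none_ne_te)
  · by_cases hy : y = P.act h
    · by_cases hn : (img P B h).Nonempty
      · left
        rcases h with t | t | y' | u'
        · refine hs.mem h2 fun w hw => ?_
          unfold tab2 at hw
          rw [if_pos hn, if_neg te_ne_ba, if_pos (by rw [hy])] at hw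
          rw [Set.mem_singleton_iff.1 hw]
          exact List.mem_singleton_self _
        · refine hs.mem h2 fun w hw => ?_
          unfold tab2 at hw
          rw [if_pos hn, if_neg te_ne_ba, if_pos (by rw [hy])] at hw
          rw [Set.mem_singleton_iff.1 hw]
          exact List.mem_singleton_self _
        · refine hs.mem h1 fun w hw => ?_
          unfold tab2 at hw
          rw [if_pos hn, if_pos (by rw [hy])] at hw
          rw [Set.mem_singleton_iff.1 hw]
          exact List.mem_singleton_self _
        · refine hs.mem h2 fun w hw => ?_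
          unfold tab2 at hw
          rw [if_pos hn, if_neg te_ne_ba, if_pos (by rw [hy])] at hw
          rw [Set.mem_singleton_iff.1 hw]
          exact List.mem_singleton_self _
      · right
        have h3 : v = u := by
          refine id_of' (f := tab2 P B h) (fun c _ => ?_) hs
          unfold tab2
          rw [if_neg hn]
        rw [h3]
        exact ⟨y, h1, h2⟩
    · exact Or.inr ⟨y, hid _ h1 (fun e => hy (ba_inj.1 e)) ba_ne_te,
        hid _ h2 te_ne_ba (fun e => hy (te_inj.1 e))⟩

variable {P}

theorem strip_self {c : P.M} (h : ∀ y, c ≠ te y) : strip [c] = [c] := by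
  unfold strip
  rw [List.filter_cons_of_pos]
  · rfl
  · simpa using h

variable (P)

/-- Alive words before the end. -/
def Alive1 (u : List P.M) : Prop := ∃ q x, strip u = st q :: x.map dl ∧ P.Reach q x

/-- Alive words after the erasure of the final state. -/
def Alive2 (u : List P.M) : Prop := ∃ w : List T, strip u = (w.map P.term).map dl ∧
  P.Reach P.z (w.map P.term)

variable {P}

theorem id_step {B : List P.Q} {h : P.HH} {u v : List P.M} (h1 : ba (P.act h) ∉ u)
    (h2 : te (P.act h) ∉ u) (hs : Sub (fun c w => w ∈ tab2 P B h c) u v) : v = u := by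
  refine id_of' (f := tab2 P B h) (fun c hc => ?_) hs
  unfold tab2
  have h3 : c ≠ ba (P.act h) := by
    rintro rfl
    exact h1 hc
  have h4 : c ≠ te (P.act h) := by
    rintro rfl
    exact h2 hc
  rw [if_neg h3, if_neg h4, ite_self]

theorem keep {B : List P.Q} {h : P.HH} {u v : List P.M}
    (hs : Sub (fun c w => w ∈ tab2 P B h c) u v) {c : P.M} (hc : c ∈ u)
    (h1 : c ≠ ba (P.act h)) (h2 : c ≠ te (P.act h)) : c ∈ v := by
  refine hs.mem hc fun w hw => ?_
  unfold tab2 at hw
  rw [if_neg h1, if_neg h2, ite_self] at hw
  rw [Set.mem_singleton_iff.1 hw]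
  exact List.mem_singleton_self _

theorem st_mem {q j : P.Q} {x : List P.D} {u : List P.M} (h : strip u = st q :: x.map dl)
    (hj : st j ∈ u) : j = q := by
  have h1 : (st j : P.M) ∈ strip u := mem_strip.2 hj
  rw [h] at h1
  rcases List.mem_cons.1 h1 with h2 | h2
  · exact Sum.inr_injective (ba_inj.1 h2)
  · obtain ⟨d, -, h3⟩ := List.mem_map.1 h2
    have h4 := ba_inj.1 h3
    cases h4

theorem dl_mem {q : P.Q} {d : P.D} {x : List P.D} {u : List P.M}
    (h : strip u = st q :: x.map dl) : dl d ∈ u ↔ d ∈ x := by
  have h1 : (dl d : P.M) ∈ strip u ↔ dl d ∈ u := mem_strip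
  rw [← h1, h, List.mem_cons]
  constructor
  · rintro (h2 | h2)
    · have h4 := ba_inj.1 h2
      cases h4
    · obtain ⟨d', h3, h4⟩ := List.mem_map.1 h2
      rw [← Sum.inl_injective (ba_inj.1 h4)]
      exact h3
  · intro h2
    exact Or.inr (List.mem_map_of_mem h2)

/-- The relation between the stripped words, if the tester of the active letter does not occur. -/
theorem strip_step {B : List P.Q} {h : P.HH} {u v : List P.M} (h2 : te (P.act h) ∉ u)
    (hn : (img P B h).Nonempty)
    (hs : Sub (fun c w => w ∈ tab2 P B h c) u v) :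
    Sub (fun c w => (c = ba (P.act h) ∧ ∃ w' ∈ img P B h, w = strip w') ∨
      (c ≠ ba (P.act h) ∧ w = [c])) (strip u) (strip v) := by
  refine strip_sub hs ?_ ?_
  · intro y hy w hw
    unfold tab2 at hw
    have h3 : (te y : P.M) ≠ te (P.act h) := by
      intro e
      rw [e] at hy
      exact h2 hy
    rw [if_neg te_ne_ba, if_neg h3, ite_self] at hw
    rw [Set.mem_singleton_iff.1 hw]
    exact strip_te y
  · intro c hc hc' w hw
    unfold tab2 at hw
    rw [if_pos hn] at hw
    by_cases h3 : c = ba (P.act h)
    · rw [if_pos h3] at hw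
      exact Or.inl ⟨h3, w, hw, rfl⟩
    · rw [if_neg h3, if_neg (hc' _)] at hw
      rw [Set.mem_singleton_iff.1 hw]
      exact Or.inr ⟨h3, strip_self hc'⟩

variable (P)

/-- Soundness of the simulation. -/
theorem inv2_step {B : List P.Q} (hB : ∀ q, q ∈ B) (h : P.HH) (u v : List P.M)
    (hu : Dead P u ∨ Alive1 P u ∨ Alive2 P u) (hs : Sub (fun c w => w ∈ tab2 P B h c) u v)
    (hz : ∀ x, P.Reach P.z x → ∃ w : List T, x = w.map P.term) :
    Dead P v ∨ Alive1 P v ∨ Alive2 P v := by
  by_cases hd : Dead P u
  · exact Or.inl (dead_step P hd hs)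
  have hu' : Alive1 P u ∨ Alive2 P u := by
    rcases hu with hu | hu
    · exact absurd hu hd
    · exact hu
  clear hu
  by_cases hn : (img P B h).Nonempty
  swap
  · have h3 : v = u := by
      refine id_of' (f := tab2 P B h) (fun c _ => ?_) hs
      unfold tab2
      rw [if_neg hn]
    rw [h3]
    exact Or.inr hu'
  by_cases hte : te (P.act h) ∈ u
  · -- the tester occurs
    rcases h with t | t | y | u'
    · refine Or.inl (Or.inl (hs.mem hte fun w hw => ?_))
      unfold tab2 at hw
      rw [if_pos hn, if_neg te_ne_ba, if_pos rfl] at hw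
      rw [Set.mem_singleton_iff.1 hw]
      exact List.mem_singleton_self _
    · refine Or.inl (Or.inl (hs.mem hte fun w hw => ?_))
      unfold tab2 at hw
      rw [if_pos hn, if_neg te_ne_ba, if_pos rfl] at hw
      rw [Set.mem_singleton_iff.1 hw]
      exact List.mem_singleton_self _
    · have hy : ba y ∉ u := fun h1 => hd (Or.inr ⟨y, h1, hte⟩)
      have h1 : Sub (fun c w => w = [c]) (strip u) (strip v) := by
        refine strip_sub hs ?_ ?_
        · intro y' hy' w hw
          unfold tab2 at hw
          rw [if_pos hn, if_neg te_ne_ba] at hw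
          by_cases h3 : (te y' : P.M) = te (P.act (.inr (.inr (.inl y))))
          · rw [if_pos h3] at hw
            rw [Set.mem_singleton_iff.1 hw]
            rfl
          · rw [if_neg h3] at hw
            rw [Set.mem_singleton_iff.1 hw]
            exact strip_te y'
        · intro c hc hc' w hw
          unfold tab2 at hw
          have h3 : c ≠ ba (P.act (.inr (.inr (.inl y)))) := by
            rintro rfl
            exact hy hc
          rw [if_neg h3, if_neg (hc' _), ite_self] at hw
          rw [Set.mem_singleton_iff.1 hw]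
          exact strip_self hc'
      have h2 : strip v = strip u := by
        rw [h1.det (fun c => [c]) (fun _ _ _ h => h), flatMap_single, List.map_id']
      unfold Alive1 Alive2
      rw [h2]
      exact Or.inr hu'
    · refine Or.inl (Or.inl (hs.mem hte fun w hw => ?_))
      unfold tab2 at hw
      rw [if_pos hn, if_neg te_ne_ba, if_pos rfl] at hw
      rw [Set.mem_singleton_iff.1 hw]
      exact List.mem_singleton_self _
  by_cases hba : ba (P.act h) ∈ u
  swap
  · rw [id_step hba hte hs]
    exact Or.inr hu'
  have hss := strip_step hte hn hs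
  rcases h with ⟨j, a, j'⟩ | ⟨q', d⟩ | y | u'
  · -- transition
    obtain ⟨w0, ht, -⟩ := id hn
    rcases hu' with ⟨q, x, h1, h2⟩ | ⟨w, h1, h2⟩
    · have hj : j = q := st_mem h1 hba
      subst hj
      by_cases hax : ∀ d, a = some d → d ∉ x
      · refine Or.inr (Or.inl ⟨j', x, ?_, h2.tail (PStep.tr ht hax)⟩)
        rw [h1] at hss
        generalize hv : strip v = v' at hss
        cases hss with
        | cons h3 h4 =>
          rcases h3 with ⟨-, w', h5, rfl⟩ | ⟨h5, -⟩
          · have h6 : strip w' = [st j'] := by
              rw [h5.2]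
              change strip (st j' :: a.elim [] fun d => [te (Sum.inl d)]) = _
              rw [strip_cons, st_eq, strip_ba]
              cases a with
              | none => rfl
              | some d => change _ ++ strip [te (Sum.inl d)] = _; rw [strip_te]; rfl
            rw [h6]
            have h7 : ∀ y', Sub (fun c w => (c = ba (P.act (.inl (j, a, j'))) ∧
                ∃ w' ∈ img P B (.inl (j, a, j')), w = strip w') ∨
                (c ≠ ba (P.act (.inl (j, a, j'))) ∧ w = [c])) (x.map dl) y' → y' = x.map dl := by
              intro y' hy'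
              rw [hy'.det (fun c => [c]), flatMap_single, List.map_id']
              intro c hc w hw
              obtain ⟨d, -, rfl⟩ := List.mem_map.1 hc
              rcases hw with ⟨h8, -⟩ | ⟨-, h8⟩
              · have h9 := ba_inj.1 h8
                cases h9
              · exact h8
            rw [h7 _ h4]
            rfl
          · exact absurd rfl h5
      · push Not at hax
        obtain ⟨d, rfl, hd'⟩ := hax
        refine Or.inl (Or.inr ⟨.inl d, ?_, ?_⟩)
        · refine keep hs ((dl_mem h1).2 hd') ?_ ba_ne_te
          intro e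
          have h9 := ba_inj.1 e
          cases h9
        · refine hs.mem hba fun w hw => ?_
          unfold tab2 at hw
          rw [if_pos hn, if_pos rfl] at hw
          rw [hw.2]
          exact List.mem_cons_of_mem _ (List.mem_singleton_self _)
    · exfalso
      have h3 : (ba (.inr j) : P.M) ∈ strip u := mem_strip.2 hba
      rw [h1] at h3
      obtain ⟨d, -, h4⟩ := List.mem_map.1 h3
      have h9 := ba_inj.1 h4
      cases h9
  · -- rule
    have hr : (P.rule q' d).Nonempty := by
      obtain ⟨w0, w1, h3, -⟩ := hn
      exact ⟨w1, h3⟩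
    rcases hu' with ⟨q, x, h1, h2⟩ | ⟨w, h1, h2⟩
    · by_cases hq : q = q'
      · subst hq
        rw [h1] at hss
        generalize hv : strip v = v' at hss
        cases hss with
        | cons h3 h4 =>
          rcases h3 with ⟨h5, -⟩ | ⟨-, rfl⟩
          · have h9 := ba_inj.1 h5
            cases h9
          · rw [Sub.map_left] at h4
            have h5 := h4.mono (g := fun c w => ∃ w', ((c = d ∧ w' ∈ P.rule q d) ∨
              (c ≠ d ∧ w' = [c])) ∧ w = w'.map dl) (by
                intro c _ w hw
                rcases hw with ⟨h6, w1, ⟨w2, h7, rfl⟩, rfl⟩ | ⟨h6, rfl⟩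
                · have h8 : c = d := Sum.inl_injective (ba_inj.1 h6)
                  refine ⟨w2, Or.inl ⟨h8, h7⟩, ?_⟩
                  change strip (w2.map dl ++ others P B q) = _
                  rw [strip_append, strip_dl, strip_others, List.append_nil]
                · refine ⟨[c], Or.inr ⟨?_, rfl⟩, rfl⟩
                  rintro rfl
                  exact h6 rfl)
            obtain ⟨y, h6, h7⟩ := h5.map_right_inv
            refine Or.inr (Or.inl ⟨q, y, ?_, h2.tail (PStep.data hr h7)⟩)
            rw [hv, h6]
            rfl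
      · refine Or.inl (Or.inr ⟨.inr q, ?_, ?_⟩)
        · have h3 : (ba (.inr q) : P.M) ∈ u := by
            rw [← mem_strip, h1]
            exact List.mem_cons_self ..
          refine keep hs h3 ?_ ba_ne_te
          intro e
          have h9 := ba_inj.1 e
          cases h9
        · refine hs.mem hba fun w hw => ?_
          unfold tab2 at hw
          rw [if_pos hn, if_pos rfl] at hw
          obtain ⟨w1, -, rfl⟩ := hw
          exact List.mem_append_right _ (mem_others (hB q) hq)
    · exfalso
      have h3 : (ba (.inl d) : P.M) ∈ strip u := mem_strip.2 hba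
      rw [h1] at h3
      obtain ⟨d', h5, h4⟩ := List.mem_map.1 h3
      obtain ⟨t, -, rfl⟩ := List.mem_map.1 h5
      have h6 : P.term t = d := Sum.inl_injective (ba_inj.1 h4)
      rw [← h6, P.inert] at hr
      exact Set.not_nonempty_empty hr
  · -- test
    refine Or.inl (Or.inl (hs.mem hba fun w hw => ?_))
    unfold tab2 at hw
    rw [if_pos hn, if_pos rfl] at hw
    rw [Set.mem_singleton_iff.1 hw]
    exact List.mem_singleton_self _
  · -- final erasure
    rcases hu' with ⟨q, x, h1, h2⟩ | ⟨w, h1, h2⟩
    · have hj : P.z = q := st_mem h1 hba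
      subst hj
      obtain ⟨w, rfl⟩ := hz x h2
      refine Or.inr (Or.inr ⟨w, ?_, h2⟩)
      rw [h1] at hss
      generalize hv : strip v = v' at hss
      cases hss with
      | cons h3 h4 =>
        rcases h3 with ⟨-, w', h5, rfl⟩ | ⟨h5, -⟩
        · rw [Set.mem_singleton_iff.1 h5]
          have h7 : ∀ y', Sub (fun c w => (c = ba (P.act (.inr (.inr (.inr u')))) ∧
              ∃ w' ∈ img P B (.inr (.inr (.inr u'))), w = strip w') ∨
              (c ≠ ba (P.act (.inr (.inr (.inr u')))) ∧ w = [c])) ((w.map P.term).map dl) y' →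
              y' = (w.map P.term).map dl := by
            intro y' hy'
            rw [hy'.det (fun c => [c]), flatMap_single, List.map_id']
            intro c hc w hw
            obtain ⟨d, -, rfl⟩ := List.mem_map.1 hc
            rcases hw with ⟨h8, -⟩ | ⟨-, h8⟩
            · have h9 := ba_inj.1 h8
              cases h9
            · exact h8
          rw [h7 _ h4]
          rfl
        · exact absurd rfl h5
    · exfalso
      have h3 : (ba (.inr P.z) : P.M) ∈ strip u := mem_strip.2 hba
      rw [h1] at h3
      obtain ⟨d, -, h4⟩ := List.mem_map.1 h3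
      have h9 := ba_inj.1 h4
      cases h9

theorem sound2 {B : List P.Q} (hB : ∀ q, q ∈ B)
    (hz : ∀ x, P.Reach P.z x → ∃ w : List T, x = w.map P.term) :
    (sys2 P B).language ⊆ P.language := by
  intro w hw
  have hinv : ∀ u : List P.M, ReflTransGen (sys2 P B).Step (sys2 P B).ax u →
      Dead P u ∨ Alive1 P u ∨ Alive2 P u := by
    intro u hu
    induction hu with
    | refl =>
      refine Or.inr (Or.inl ⟨P.q0, P.ax, ?_, ReflTransGen.refl⟩)
      change strip (st P.q0 :: P.ax.map dl) = _
      rw [strip_cons, strip_dl, st_eq, strip_ba]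
      rfl
    | tail _ h ih =>
      obtain ⟨t, h⟩ := h
      exact P.inv2_step hB t _ _ ih h hz
  have h1 := hinv _ hw
  have hm : ∀ c : P.M, c ∈ w.map (fun t => (dl (P.term t) : P.M)) → ∃ t, c = ba (.inl (P.term t)) := by
    intro c hc
    obtain ⟨t, -, h⟩ := List.mem_map.1 hc
    exact ⟨t, h.symm⟩
  have hst : strip (w.map (fun t => (dl (P.term t) : P.M))) = (w.map P.term).map dl := by
    have := strip_dl (w.map P.term)
    rw [List.map_map] at this ⊢
    exact this
  rcases h1 with (h1 | ⟨y, -, h1⟩) | ⟨q, x, h1, h2⟩ | ⟨w', h1, h2⟩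
  · obtain ⟨t, h2⟩ := hm _ h1
    exact absurd h2 none_ne_ba
  · obtain ⟨t, h2⟩ := hm _ h1
    exact absurd h2 te_ne_ba
  · exfalso
    have h3 : (st q : P.M) ∈ strip (w.map (fun t => (dl (P.term t) : P.M))) := by
      have h4 : (st q : P.M) ∈ st q :: x.map dl := List.mem_cons_self ..
      exact h1 ▸ h4
    obtain ⟨t, h5⟩ := hm _ (mem_strip.1 h3)
    have h9 := ba_inj.1 h5
    cases h9
  · have h3 : (w.map P.term).map (dl (P := P)) = (w'.map P.term).map dl := hst.symm.trans h1
    have h4 : w.map P.term = w'.map P.term :=
      List.map_injective_iff.2 (fun a b e => Sum.inl_injective (ba_inj.1 e)) h3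
    change P.Reach P.z (w.map P.term)
    rw [h4]
    exact h2

variable {P}

theorem tab2_act {B : List P.Q} {h : P.HH} {c : P.M} (hc : c = ba (P.act h)) {w : List P.M}
    (hn : (img P B h).Nonempty) (hw : w ∈ img P B h) : w ∈ tab2 P B h c := by
  unfold tab2
  rw [if_pos hn, if_pos hc]
  exact hw

theorem tab2_te {B : List P.Q} {h : P.HH} {c : P.M} (hc : c = te (P.act h)) {w : List P.M}
    (hn : (img P B h).Nonempty) (hw : w ∈ timg P h) : w ∈ tab2 P B h c := by
  unfold tab2
  rw [if_pos hn, if_neg (by rw [hc]; exact te_ne_ba), if_pos hc]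
  exact hw

theorem tab2_other {B : List P.Q} {h : P.HH} {c : P.M} (h1 : c ≠ ba (P.act h))
    (h2 : c ≠ te (P.act h)) : [c] ∈ tab2 P B h c := by
  unfold tab2
  rw [if_neg h1, if_neg h2, ite_self]
  rfl

theorem st_ne_inl {q : P.Q} {d : P.D} : (st q : P.M) ≠ ba (.inl d) := by
  intro e
  have h9 := ba_inj.1 e
  cases h9

theorem dl_ne_inr {q : P.Q} {d : P.D} : (dl d : P.M) ≠ ba (.inr q) := by
  intro e
  have h9 := ba_inj.1 e
  cases h9

variable (P)

theorem clean (B : List P.Q) (s : List (P.D ⊕ P.Q)) : ∀ v : List P.M,
    (∀ y, te y ∈ v → ba y ∉ v) →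
    ∃ v' : List P.M, ReflTransGen (sys2 P B).Step v v' ∧ strip v' = strip v ∧
      (∀ c, c ∈ v' → c ∈ v) ∧ ∀ y ∈ s, te y ∉ v' := by
  classical
  induction s with
  | nil => exact fun v _ => ⟨v, ReflTransGen.refl, rfl, fun _ h => h, fun y hy => by cases hy⟩
  | cons y s ih =>
    intro v hv
    by_cases hy : te y ∈ v
    · have hb := hv y hy
      have h1 : Sub (fun c w => w ∈ tab2 P B (.inr (.inr (.inl y))) c) v
          (v.filter fun c => c ≠ te y) := by
        clear hv hy
        induction v with
        | nil => exact Sub.nil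
        | cons c v ihv =>
          have ihv' := ihv fun h => hb (List.mem_cons_of_mem _ h)
          have hc : c ≠ ba y := fun e => hb (e ▸ List.mem_cons_self ..)
          by_cases h1 : c = te y
          · have h3 : ((c :: v).filter fun c => c ≠ te y) = v.filter fun c => c ≠ te y := by
              simp [h1]
            rw [h3]
            exact Sub.cons (w := []) (tab2_te (h := .inr (.inr (.inl y))) h1 ⟨_, rfl⟩ rfl) ihv'
          · have h3 : ((c :: v).filter fun c => c ≠ te y) = c :: v.filter fun c => c ≠ te y := by
              simp [h1]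
            rw [h3]
            exact Sub.cons (w := [c]) (tab2_other (h := .inr (.inr (.inl y))) hc h1) ihv'
      have h2 : strip (v.filter fun c => c ≠ te y) = strip v := by
        unfold strip
        rw [List.filter_filter]
        refine List.filter_congr fun c _ => ?_
        by_cases h3 : c = te y
        · subst h3
          simp
        · simp [h3]
      have h3 : ∀ c, c ∈ (v.filter fun c => c ≠ te y) → c ∈ v :=
        fun c hc => List.mem_of_mem_filter hc
      obtain ⟨v', h4, h5, h6, h7⟩ := ih (v.filter fun c => c ≠ te y)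
        (fun y' h8 h9 => hv y' (h3 _ h8) (h3 _ h9))
      refine ⟨v', ReflTransGen.head ⟨.inr (.inr (.inl y)), h1⟩ h4, h5.trans h2,
        fun c hc => h3 c (h6 c hc), ?_⟩
      intro y' hy'
      rcases List.mem_cons.1 hy' with rfl | h8
      · intro h9
        have h10 := h6 _ h9
        rw [List.mem_filter] at h10
        simp at h10
      · exact h7 y' h8
    · obtain ⟨v', h4, h5, h6, h7⟩ := ih v hv
      refine ⟨v', h4, h5, h6, ?_⟩
      intro y' hy'
      rcases List.mem_cons.1 hy' with rfl | h8
      · exact fun h9 => hy (h6 _ h9)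
      · exact h7 y' h8

theorem clean' (B : List P.Q) (v : List P.M) (hv : ∀ y, te y ∈ v → ba y ∉ v) :
    ReflTransGen (sys2 P B).Step v (strip v) := by
  classical
  have := P.finD
  have := P.finQ
  have := Fintype.ofFinite (P.D ⊕ P.Q)
  obtain ⟨v', h1, h2, -, h4⟩ := clean P B (Finset.univ : Finset (P.D ⊕ P.Q)).toList v hv
  have h5 : strip v' = v' := by
    unfold strip
    rw [List.filter_eq_self]
    intro c hc
    simp only [decide_eq_true_eq]
    rintro ⟨y, rfl⟩
    exact h4 y (by simp) hc
  rw [← h2, h5]
  exact h1

theorem data_sub {B : List P.Q} {q : P.Q} {d : P.D} {x y : List P.D}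
    (hr : (P.rule q d).Nonempty)
    (h : Sub (fun c w => (c = d ∧ w ∈ P.rule q d) ∨ (c ≠ d ∧ w = [c])) x y) :
    ∃ v : List P.M, Sub (fun c w => w ∈ tab2 P B (.inr (.inl (q, d))) c) (x.map dl) v ∧
      strip v = y.map dl ∧ ∀ z, te z ∈ v → ∃ p, p ≠ q ∧ z = .inr p := by
  have hn : (img P B (.inr (.inl (q, d)))).Nonempty := hr.image _
  induction h with
  | nil => exact ⟨[], Sub.nil, rfl, fun z hz => by cases hz⟩
  | @cons a w x y h1 _ ih =>
    obtain ⟨v, h2, h3, h4⟩ := ih
    rcases h1 with ⟨rfl, h1⟩ | ⟨h1, rfl⟩
    · refine ⟨(w.map dl ++ others P B q) ++ v, Sub.cons ?_ h2, ?_, ?_⟩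
      · exact tab2_act (h := .inr (.inl (q, a))) rfl hn ⟨w, h1, rfl⟩
      · rw [strip_append, strip_append, strip_dl, strip_others, h3, List.append_nil,
          List.map_append]
      · intro z hz
        rcases List.mem_append.1 hz with hz | hz
        · rcases List.mem_append.1 hz with hz | hz
          · obtain ⟨c, -, h5⟩ := List.mem_map.1 hz
            exact absurd h5 ba_ne_te
          · obtain ⟨p, h5, h6⟩ := of_mem_others hz
            exact ⟨p, h5, te_inj.1 h6⟩
        · exact h4 z hz
    · refine ⟨[dl a] ++ v, Sub.cons ?_ h2, ?_, ?_⟩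
      · exact tab2_other (h := .inr (.inl (q, d)))
          (fun e => h1 (Sum.inl_injective (ba_inj.1 e))) ba_ne_te
      · rw [strip_append, h3, dl_eq, strip_ba]
        rfl
      · intro z hz
        rcases List.mem_append.1 hz with hz | hz
        · exact absurd (List.mem_singleton.1 hz) te_ne_ba
        · exact h4 z hz

theorem complete2_reach (B : List P.Q) (c : P.Q × List P.D)
    (h : ReflTransGen P.PStep (P.q0, P.ax) c) :
    ReflTransGen (sys2 P B).Step (sys2 P B).ax (st c.1 :: c.2.map dl) := by
  induction h with
  | refl => exact ReflTransGen.refl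
  | tail _ h ih =>
    cases h with
    | @tr j a j' x ht hax =>
      have hn : (img P B (.inl (j, a, j'))).Nonempty := ⟨_, ht, rfl⟩
      have h1 : Sub (fun c w => w ∈ tab2 P B (.inl (j, a, j')) c) (st j :: x.map dl)
          ((st j' :: a.elim [] fun d => [te (.inl d)]) ++ x.map dl) := by
        refine Sub.cons ?_ (Sub.self _ ?_)
        · exact tab2_act (h := .inl (j, a, j')) rfl hn ⟨ht, rfl⟩
        · intro c hc
          obtain ⟨d, -, rfl⟩ := List.mem_map.1 hc
          exact tab2_other (h := .inl (j, a, j')) dl_ne_inr ba_ne_te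
      have h2 : strip ((st j' :: a.elim [] fun d => [te (.inl d)]) ++ x.map dl) =
          (st j' :: x.map dl : List P.M) := by
        rw [strip_append, strip_dl, strip_cons, st_eq, strip_ba]
        cases a with
        | none => rfl
        | some d => change (_ ++ strip [te (Sum.inl d)]) ++ _ = _; rw [strip_te]; rfl
      have h0 := clean' P B ((st j' :: a.elim [] fun d => [te (.inl d)]) ++ x.map dl) ?_
      · rw [h2] at h0
        exact (ih.tail ⟨_, h1⟩).trans h0
      intro y hy hb
      have hy' : ∃ d, a = some d ∧ y = .inl d := by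
        rcases List.mem_append.1 hy with hy | hy
        · rcases List.mem_cons.1 hy with hy | hy
          · exact absurd hy te_ne_ba
          · cases a with
            | none => cases hy
            | some d => exact ⟨d, rfl, te_inj.1 (List.mem_singleton.1 hy)⟩
        · obtain ⟨d, -, h5⟩ := List.mem_map.1 hy
          exact absurd h5 ba_ne_te
      obtain ⟨d, rfl, rfl⟩ := hy'
      apply hax d rfl
      rw [← mem_strip, h2] at hb
      rcases List.mem_cons.1 hb with h5 | h5
      · have h9 := ba_inj.1 h5
        cases h9
      · obtain ⟨d', h6, h7⟩ := List.mem_map.1 h5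
        rw [← Sum.inl_injective (ba_inj.1 h7)]
        exact h6
    | @data q d x y hr hs =>
      obtain ⟨v, h1, h2, h3⟩ := data_sub P (B := B) hr hs
      have hn : (img P B (.inr (.inl (q, d)))).Nonempty := hr.image _
      have h4 : Sub (fun c w => w ∈ tab2 P B (.inr (.inl (q, d))) c) (st q :: x.map dl)
          ([st q] ++ v) := by
        exact Sub.cons (tab2_other (h := .inr (.inl (q, d))) st_ne_inl ba_ne_te) h1
      have h5 : strip ([st q] ++ v) = (st q :: y.map dl : List P.M) := by
        rw [strip_append, h2, st_eq, strip_ba]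
        rfl
      have h0 := clean' P B ([st q] ++ v) ?_
      · rw [h5] at h0
        exact (ih.tail ⟨_, h4⟩).trans h0
      intro z hz hb
      have hz' : te z ∈ v := by
        rcases List.mem_append.1 hz with hz | hz
        · exact absurd (List.mem_singleton.1 hz) te_ne_ba
        · exact hz
      obtain ⟨p, h6, rfl⟩ := h3 z hz'
      rw [← mem_strip, h5] at hb
      rcases List.mem_cons.1 hb with h7 | h7
      · exact h6 (Sum.inr_injective (ba_inj.1 h7))
      · obtain ⟨d', -, h8⟩ := List.mem_map.1 h7
        have h9 := ba_inj.1 h8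
        cases h9

theorem complete2 (B : List P.Q) : P.language ⊆ (sys2 P B).language := by
  intro w hw
  have h1 := P.complete2_reach B _ hw
  have hn : (img P B (.inr (.inr (.inr ())))).Nonempty := ⟨_, rfl⟩
  have h2 : Sub (fun c w => w ∈ tab2 P B (.inr (.inr (.inr ()))) c)
      (st P.z :: (w.map P.term).map dl) ([] ++ (w.map P.term).map dl) := by
    refine Sub.cons ?_ (Sub.self _ ?_)
    · exact tab2_act (h := .inr (.inr (.inr ()))) rfl hn rfl
    · intro c hc
      obtain ⟨d, -, rfl⟩ := List.mem_map.1 hc
      exact tab2_other (h := .inr (.inr (.inr ()))) dl_ne_inr ba_ne_te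
  have h3 := h1.tail ⟨_, h2⟩
  have h4 : (w.map fun t => (dl (P.term t) : P.M)) = [] ++ (w.map P.term).map dl := by
    rw [List.nil_append, List.map_map]
    rfl
  exact (congrArg (ReflTransGen (sys2 P B).Step (sys2 P B).ax) h4).mpr h3

/-- The language of a program in which only words over the terminal alphabet can be reached in the
final state is generated by a 2-restricted system. -/
theorem exists_system2 (hz : ∀ x, P.Reach P.z x → ∃ w : List T, x = w.map P.term) :
    ∃ G : ET0L T, G.Restricted 2 ∧ G.language = P.language := by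
  classical
  have := P.finQ
  have := Fintype.ofFinite P.Q
  have hB : ∀ p, p ∈ (Finset.univ : Finset P.Q).toList := by
    intro p
    simp
  exact ⟨sys2 P _, restricted2 P _, Set.Subset.antisymm (P.sound2 hB hz) (P.complete2 _)⟩

end Prog

/-- Every ET0L language is generated by a 2-restricted ET0L system. -/
theorem exists_two {T : Type} (G : ET0L T) :
    ∃ G' : ET0L T, G'.Restricted 2 ∧ G'.language = G.language := by
  have := G.finV
  obtain ⟨n, ⟨e⟩⟩ := Finite.exists_equiv_fin G.V
  have h := (Sim.prog e.symm).exists_system2 fun x hx => by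
    obtain ⟨w, -, h2⟩ := Sim.reach_pinv e.symm .z x hx
    exact ⟨w, h2⟩
  obtain ⟨G', h1, h2⟩ := h
  exact ⟨G', h1, h2.trans (Sim.language_prog e.symm)⟩

end Pool.Agent.X247.K3
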