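import Pool.Agent.X247.K3.Lower

set_option autoImplicit false

/-!
# An ET0L system for the words `a^n # b^n $ c^n`
-/

namespace Pool.Agent.X247.K3

open Relation

/-- The letters `a`, `b`, `c`. -/
def out : Fin 3 → Fin 5
  | 0 => 0
  | 1 => 2
  | 2 => 4

/-- The two tables. -/
def ev (b : Bool) : Fin 5 ⊕ Fin 3 → List (Fin 5 ⊕ Fin 3)
  | .inl t => [.inl t]
  | .inr i => if b then [.inl (out i), .inr i] else []

/-- The ET0L system for the words `W n`. -/
def GW : ET0L (Fin 5) where
  V := Fin 5 ⊕ Fin 3
  finV := inferInstance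
  H := Bool
  finH := inferInstance
  neH := inferInstance
  tab := fun b c => {ev b c}
  tab_fin := fun _ _ => Set.finite_singleton _
  tab_ne := fun _ _ => Set.singleton_nonempty _
  ax := [.inr 0, .inl 1, .inr 1, .inl 3, .inr 2]
  ax_ne := List.cons_ne_nil _ _
  term := Sum.inl
  term_inj := Sum.inl_injective

/-- The sentential forms. -/
def SW (n : ℕ) : List (Fin 5 ⊕ Fin 3) :=
  List.replicate n (.inl 0) ++ .inr 0 :: .inl 1 ::
    (List.replicate n (.inl 2) ++ .inr 1 :: .inl 3 :: (List.replicate n (.inl 4) ++ [.inr 2]))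

theorem step_GW {x y : List (Fin 5 ⊕ Fin 3)} : GW.Step x y ↔ ∃ b, y = x.flatMap (ev b) := by
  constructor
  · rintro ⟨b, h⟩
    exact ⟨b, h.det (ev b) fun _ _ _ hw => hw⟩
  · rintro ⟨b, rfl⟩
    exact ⟨b, Sub.of_fun x (ev b) fun _ _ => rfl⟩

theorem flatMap_inl (b : Bool) (w : List (Fin 5)) :
    (w.map Sum.inl).flatMap (ev b) = w.map Sum.inl := by
  induction w with
  | nil => rfl
  | cons t w ih => rw [List.map_cons, List.flatMap_cons, ih]; rfl

theorem flatMap_rep (b : Bool) (n : ℕ) (t : Fin 5) :
    (List.replicate n (Sum.inl t : Fin 5 ⊕ Fin 3)).flatMap (ev b) =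
      List.replicate n (Sum.inl t) := by
  have := flatMap_inl b (List.replicate n t)
  rwa [List.map_replicate] at this

theorem flatMap_true (n : ℕ) : (SW n).flatMap (ev true) = SW (n + 1) := by
  unfold SW
  rw [List.flatMap_append, List.flatMap_cons, List.flatMap_cons, List.flatMap_append,
    List.flatMap_cons, List.flatMap_cons, List.flatMap_append, flatMap_rep, flatMap_rep,
    flatMap_rep, List.replicate_succ', List.replicate_succ', List.replicate_succ']
  simp [ev, out]

theorem flatMap_false (n : ℕ) : (SW n).flatMap (ev false) = (W n).map Sum.inl := by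
  unfold SW W
  rw [List.flatMap_append, List.flatMap_cons, List.flatMap_cons, List.flatMap_append,
    List.flatMap_cons, List.flatMap_cons, List.flatMap_append, flatMap_rep, flatMap_rep,
    flatMap_rep]
  simp [ev]

theorem language_GW : GW.language = {w | ∃ n, w = W n} := by
  ext w
  constructor
  · intro h
    have h1 : ∀ x : List (Fin 5 ⊕ Fin 3), ReflTransGen GW.Step GW.ax x →
        (∃ n, x = SW n) ∨ ∃ n, x = (W n).map Sum.inl := by
      intro x hx
      induction hx with
      | refl => exact Or.inl ⟨0, rfl⟩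
      | tail _ hs ih =>
        obtain ⟨b, rfl⟩ := step_GW.1 hs
        rcases ih with ⟨n, rfl⟩ | ⟨n, rfl⟩
        · cases b with
          | false => exact Or.inr ⟨n, flatMap_false n⟩
          | true => exact Or.inl ⟨n + 1, flatMap_true n⟩
        · exact Or.inr ⟨n, flatMap_inl b _⟩
    rcases h1 _ h with ⟨n, h2⟩ | ⟨n, h2⟩
    · exfalso
      have h3 : (Sum.inr 0 : Fin 5 ⊕ Fin 3) ∈ w.map Sum.inl := by
        have h4 : (Sum.inr 0 : Fin 5 ⊕ Fin 3) ∈ SW n :=
          List.mem_append_right _ (List.mem_cons_self ..)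
        rw [← h2] at h4
        exact h4
      obtain ⟨t, -, h5⟩ := List.mem_map.1 h3
      cases h5
    · exact ⟨n, List.map_injective_iff.2 Sum.inl_injective h2⟩
  · rintro ⟨n, rfl⟩
    have h1 : ∀ n, ReflTransGen GW.Step GW.ax (SW n) := by
      intro n
      induction n with
      | zero => exact ReflTransGen.refl
      | succ n ih => exact ih.tail (step_GW.2 ⟨true, (flatMap_true n).symm⟩)
    exact (h1 n).tail (step_GW.2 ⟨false, (flatMap_false n).symm⟩)

end Pool.Agent.X247.K3
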